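import Mathlib

/-!
# MP_6a66b4_co: approximate groups mapping onto a Heisenberg grid

Let `m_K(N)` be the infimum of `|B|` over all admissible `(G, B, φ)`.

* As stated, the cocycle condition is only imposed for `x, y, xy ∈ B`.  Then Q1 has a negative answer:
  for `K ≥ 3` one has `(2N+1)² ≤ m_K(N) ≤ 2(2N+1)² + 1`.  Example: in `ZMod 5 × H`, with `H` abelian of
  order `(2N+1)²`, the set `B = {0} ∪ {1,4} × H` is a `3`-approximate group in which `x, y, xy ∈ B` forces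
  `x = 1`, `y = 1` or `xy = 1`.

* If the cocycle condition is imposed on `B ^ m` for some `m ≥ 10` (in the `SO(3)` analogue `m = 12`), then
  `m_K(N)/N³ → ∞`.  Proof: suppose `|B| ≤ C N³`.  Let `Z` be the kernel of the horizontal part `(x, y)`.
  Counting shows that `B ^ 8 ∩ Z` has boundedly many elements with `z`-coordinate `O(1/N)`, and every
  `z ∈ B ^ 8 ∩ Z` has boundedly many conjugates by elements of `B`.  A bounded set of elements controls
  `B ^ 4 ∩ Z`, so by the pigeonhole principle there are `g, h ∈ B²` lying over `(s R / N, 0)` and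
  `(0, s' R / N)` (with `s, s'` bounded and `R ≈ ε √N`) which commute with `B ^ 4 ∩ Z` and with all small
  elements of `B ^ 8 ∩ Z`.  With `c = [g, h]` one gets `c ^ n = [γ_n, h]` where `γ_n ∈ B` lies over
  `n s R / N`, so the `z`-coordinate of `c ^ n` is `n s s' R² / N² + O(1/N)` with a uniform error, for all
  `n ≤ N / (s R)`.  So the powers of `c` give too many small elements.
-/

namespace Pool.Agent.Results.MP_6a66b4_co.HeisenbergGrid

open Pointwise

/-- The real Heisenberg group `H(ℝ)` with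
`(x₁,y₁,z₁) * (x₂,y₂,z₂) = (x₁+x₂, y₁+y₂, z₁+z₂+x₁y₂)`. -/
@[ext] structure Heis where
  x : ℝ
  y : ℝ
  z : ℝ

namespace Heis

instance : Mul Heis := ⟨fun a b => ⟨a.x + b.x, a.y + b.y, a.z + b.z + a.x * b.y⟩⟩
instance : One Heis := ⟨⟨0, 0, 0⟩⟩
instance : Inv Heis := ⟨fun a => ⟨-a.x, -a.y, -a.z + a.x * a.y⟩⟩

@[simp] theorem mul_x (a b : Heis) : (a * b).x = a.x + b.x := rfl
@[simp] theorem mul_y (a b : Heis) : (a * b).y = a.y + b.y := rfl
@[simp] theorem mul_z (a b : Heis) : (a * b).z = a.z + b.z + a.x * b.y := rfl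
@[simp] theorem one_x : (1 : Heis).x = 0 := rfl
@[simp] theorem one_y : (1 : Heis).y = 0 := rfl
@[simp] theorem one_z : (1 : Heis).z = 0 := rfl
@[simp] theorem inv_x (a : Heis) : (a⁻¹).x = -a.x := rfl
@[simp] theorem inv_y (a : Heis) : (a⁻¹).y = -a.y := rfl
@[simp] theorem inv_z (a : Heis) : (a⁻¹).z = -a.z + a.x * a.y := rfl

instance : Group Heis :=
  Group.ofLeftAxioms
    (fun a b c => by ext <;> simp <;> ring)
    (fun a => by ext <;> simp)
    (fun a => by ext <;> simp)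

end Heis

/-- `B ⊆ G` is a `K`-approximate group: `1 ∈ B`, `B⁻¹ = B` and `B² = B * B` is covered by at most `K`
left translates of `B`. -/
def IsApproxGroup {G : Type} [Group G] (K : ℝ) (B : Set G) : Prop :=
  (1 : G) ∈ B ∧ B⁻¹ = B ∧ ∃ X : Finset G, (X.card : ℝ) ≤ K ∧ B * B ⊆ (X : Set G) * B

/-- The cocycle `∂φ(x,y) = φ(y)⁻¹ * φ(x)⁻¹ * φ(xy)`. -/
def cocycle {G : Type} [Group G] (φ : G → Heis) (x y : G) : Heis :=
  (φ y)⁻¹ * (φ x)⁻¹ * φ (x * y)

/-- Admissibility of `(G, B, φ)` where the cocycle condition 3 is imposed on `B ^ m`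
(for `m = 1` this is the condition on `B` in the problem).  Only the values of `φ` on `B ^ m` matter. -/
structure Admissible (m : ℕ) (K : ℝ) (N : ℕ) {G : Type} [Group G] (B : Set G) (φ : G → Heis) :
    Prop where
  approx : IsApproxGroup K B
  values : ∀ b ∈ B, (∃ i j : ℤ, (φ b).x = i / N ∧ (φ b).y = j / N) ∧
    |(φ b).x| ≤ 10 ∧ |(φ b).y| ≤ 10 ∧ |(φ b).z| ≤ 10
  onto : ∀ i j : ℤ, |(i : ℝ) / N| ≤ 1 → |(j : ℝ) / N| ≤ 1 →
    ∃ b ∈ B, (φ b).x = i / N ∧ (φ b).y = j / N ∧ |(φ b).z| ≤ 10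
  almostHom : ∀ x ∈ B ^ m, ∀ y ∈ B ^ m, x * y ∈ B ^ m →
    ∃ z : ℝ, |z| ≤ 10 / N ∧ cocycle φ x y = ⟨0, 0, z⟩

/-- The infimum of `|B| ∈ {0, 1, …, ∞}` over all admissible `(G, B, φ)`. -/
noncomputable def minCard (m : ℕ) (K : ℝ) (N : ℕ) : ℕ∞ :=
  sInf {n : ℕ∞ | ∃ (G : Type) (_ : Group G) (B : Set G) (φ : G → Heis),
    Admissible m K N B φ ∧ n = B.encard}


section Core

open Finset

/-- Working hypotheses extracted from admissibility (with three real valued functions on the group). -/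
structure Setup {G : Type} [Group G] [DecidableEq G] (B : Finset G) (X Y Z : G → ℝ)
    (N k C : ℕ) : Prop where
  hN : 0 < N
  one : (1 : G) ∈ B
  inv : ∀ b ∈ B, b⁻¹ ∈ B
  cover : ∃ W : Finset G, W.card ≤ k ∧ B * B ⊆ W * B
  card : B.card ≤ C * N ^ 3
  bdx : ∀ b ∈ B, |X b| ≤ 10
  bdy : ∀ b ∈ B, |Y b| ≤ 10
  bdz : ∀ b ∈ B, |Z b| ≤ 10
  onto : ∀ i j : ℤ, |i| ≤ N → |j| ≤ N → ∃ b ∈ B, X b = i / N ∧ Y b = j / N
  mulx : ∀ x ∈ B ^ 10, ∀ y ∈ B ^ 10, x * y ∈ B ^ 10 → X (x * y) = X x + X y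
  muly : ∀ x ∈ B ^ 10, ∀ y ∈ B ^ 10, x * y ∈ B ^ 10 → Y (x * y) = Y x + Y y
  mulz : ∀ x ∈ B ^ 10, ∀ y ∈ B ^ 10, x * y ∈ B ^ 10 →
    |Z (x * y) - Z x - Z y - X x * Y y| ≤ 10 / N

variable {G : Type} [Group G] [DecidableEq G] {B : Finset G} {X Y Z : G → ℝ} {N k C : ℕ}

namespace Setup

theorem powMono (S : Setup B X Y Z N k C) {i j : ℕ} (h : i ≤ j) {x : G} (hx : x ∈ B ^ i) :
    x ∈ B ^ j := Finset.pow_subset_pow_right S.one h hx

theorem mulMem (S : Setup B X Y Z N k C) {i j l : ℕ} {x y : G} (hx : x ∈ B ^ i) (hy : y ∈ B ^ j)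
    (h : i + j ≤ l) : x * y ∈ B ^ l := by
  refine S.powMono h ?_
  rw [pow_add]
  exact Finset.mul_mem_mul hx hy

theorem invMem (S : Setup B X Y Z N k C) {i : ℕ} {x : G} (hx : x ∈ B ^ i) : x⁻¹ ∈ B ^ i := by
  induction i generalizing x with
  | zero =>
    rw [pow_zero, Finset.mem_one] at hx
    rw [hx, pow_zero]
    simp
  | succ n ih =>
    rw [pow_succ] at hx
    obtain ⟨a, ha, b, hb, rfl⟩ := Finset.mem_mul.mp hx
    rw [mul_inv_rev, pow_succ']
    exact Finset.mul_mem_mul (S.inv b hb) (ih ha)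

theorem memPow (S : Setup B X Y Z N k C) {b : G} (hb : b ∈ B) {j : ℕ} (hj : 1 ≤ j) : b ∈ B ^ j := by
  refine S.powMono hj ?_
  rwa [pow_one]

theorem coverPow (S : Setup B X Y Z N k C) : ∃ W : Finset G, W.card ≤ k ∧
    ∀ n, B ^ (n + 1) ⊆ W ^ n * B := by
  obtain ⟨W, hW, hBW⟩ := S.cover
  refine ⟨W, hW, fun n => ?_⟩
  induction n with
  | zero => simp
  | succ n ih =>
    calc B ^ (n + 1 + 1) = B ^ (n + 1) * B := pow_succ _ _
      _ ⊆ (W ^ n * B) * B := Finset.mul_subset_mul_right ih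
      _ = W ^ n * (B * B) := mul_assoc _ _ _
      _ ⊆ W ^ n * (W * B) := Finset.mul_subset_mul_left hBW
      _ = W ^ (n + 1) * B := by rw [← mul_assoc, ← pow_succ]

theorem cardPow (S : Setup B X Y Z N k C) (n : ℕ) : (B ^ (n + 1)).card ≤ k ^ n * (C * N ^ 3) := by
  obtain ⟨W, hW, h⟩ := S.coverPow
  calc (B ^ (n + 1)).card ≤ (W ^ n * B).card := Finset.card_le_card (h n)
    _ ≤ (W ^ n).card * B.card := Finset.card_mul_le
    _ ≤ W.card ^ n * B.card := Nat.mul_le_mul_right _ Finset.card_pow_le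
    _ ≤ k ^ n * (C * N ^ 3) := Nat.mul_le_mul (Nat.pow_le_pow_left hW n) S.card

theorem eps_pos (S : Setup B X Y Z N k C) : (0 : ℝ) < 10 / N := by
  have := S.hN
  positivity

/-- elements of the kernel of `(X, Y)` -/
def Ker (X Y : G → ℝ) (z : G) : Prop := X z = 0 ∧ Y z = 0

theorem one_facts (S : Setup B X Y Z N k C) : X 1 = 0 ∧ Y 1 = 0 ∧ |Z 1| ≤ 10 / N := by
  have h1 : (1 : G) ∈ B ^ 10 := S.memPow S.one (by norm_num)
  have hx := S.mulx 1 h1 1 h1 (by rwa [one_mul])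
  have hy := S.muly 1 h1 1 h1 (by rwa [one_mul])
  have hz := S.mulz 1 h1 1 h1 (by rwa [one_mul])
  rw [one_mul] at hx hy hz
  have hx0 : X 1 = 0 := by linarith
  have hy0 : Y 1 = 0 := by linarith
  refine ⟨hx0, hy0, ?_⟩
  rw [hx0, hy0] at hz
  have : |Z 1| = |Z 1 - Z 1 - Z 1 - 0 * 0| := by
    rw [sub_self, zero_sub, mul_zero, sub_zero, abs_neg]
  rw [this]; exact hz

theorem inv_facts (S : Setup B X Y Z N k C) {x : G} (hx : x ∈ B ^ 10) :
    X x⁻¹ = - X x ∧ Y x⁻¹ = - Y x ∧ |Z x⁻¹ + Z x - X x * Y x| ≤ 20 / N := by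
  obtain ⟨h1, h2, h3⟩ := S.one_facts
  have hxi := S.invMem hx
  have h10 : x * x⁻¹ ∈ B ^ 10 := by
    rw [mul_inv_cancel]
    exact S.memPow S.one (by norm_num)
  have ex := S.mulx x hx x⁻¹ hxi h10
  have ey := S.muly x hx x⁻¹ hxi h10
  have ez := S.mulz x hx x⁻¹ hxi h10
  rw [mul_inv_cancel] at ex ey ez
  have ex' : X x⁻¹ = - X x := by linarith
  have ey' : Y x⁻¹ = - Y x := by linarith
  refine ⟨ex', ey', ?_⟩
  rw [ey'] at ez
  rw [abs_le] at ez h3 ⊢
  have : (20 : ℝ) / N = 10 / N + 10 / N := by ring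
  constructor <;> nlinarith [ez.1, ez.2, h3.1, h3.2]

/-- conjugates of kernel elements -/
theorem conj_facts (S : Setup B X Y Z N k C) {z b : G} (hz : z ∈ B ^ 8) (hK : Ker X Y z)
    (hb : b ∈ B) : b * z * b⁻¹ ∈ B ^ 10 ∧ Ker X Y (b * z * b⁻¹) ∧
      |Z (b * z * b⁻¹) - Z z| ≤ 40 / N := by
  obtain ⟨hzx, hzy⟩ := hK
  have hb1 : b ∈ B ^ 1 := by rwa [pow_one]
  have hb10 : b ∈ B ^ 10 := S.memPow hb (by norm_num)
  have hbz : b * z ∈ B ^ 9 := S.mulMem hb1 hz (by norm_num)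
  have hbz10 : b * z ∈ B ^ 10 := S.powMono (by norm_num) hbz
  have hbi : b⁻¹ ∈ B ^ 1 := S.invMem hb1
  have hbi10 : b⁻¹ ∈ B ^ 10 := S.powMono (by norm_num) hbi
  have hm : b * z * b⁻¹ ∈ B ^ 10 := S.mulMem hbz hbi (by norm_num)
  have hz10 : z ∈ B ^ 10 := S.powMono (by norm_num) hz
  obtain ⟨ix, iy, iz⟩ := S.inv_facts hb10
  have ax := S.mulx b hb10 z hz10 hbz10
  have ay := S.muly b hb10 z hz10 hbz10
  have az := S.mulz b hb10 z hz10 hbz10
  have bx := S.mulx (b * z) hbz10 b⁻¹ hbi10 hm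
  have by' := S.muly (b * z) hbz10 b⁻¹ hbi10 hm
  have bz := S.mulz (b * z) hbz10 b⁻¹ hbi10 hm
  refine ⟨hm, ⟨by rw [bx, ax, ix, hzx]; ring, by rw [by', ay, iy, hzy]; ring⟩, ?_⟩
  rw [ax, hzx, iy, add_zero] at bz
  rw [hzy] at az
  have h40 : (40 : ℝ) / N = 4 * (10 / N) := by ring
  have h20 : (20 : ℝ) / N = 2 * (10 / N) := by ring
  rw [h20] at iz
  rw [h40]
  rw [abs_le] at *
  constructor <;> nlinarith [az.1, az.2, bz.1, bz.2, iz.1, iz.2]

/-- commutators -/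
theorem comm_facts (S : Setup B X Y Z N k C) {g h : G} {i j : ℕ} (hg : g ∈ B ^ i) (hh : h ∈ B ^ j)
    (hij : i + j ≤ 5) : g * h * g⁻¹ * h⁻¹ ∈ B ^ (2 * (i + j)) ∧ Ker X Y (g * h * g⁻¹ * h⁻¹) ∧
      |Z (g * h * g⁻¹ * h⁻¹) - (X g * Y h - X h * Y g)| ≤ 30 / N := by
  set c := g * h * g⁻¹ * h⁻¹ with hc
  have hgh : g * h ∈ B ^ (i + j) := S.mulMem hg hh le_rfl
  have hhg : h * g ∈ B ^ (i + j) := S.mulMem hh hg (by omega)
  have hc' : c = (g * h) * (h * g)⁻¹ := by rw [hc]; group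
  have hcm : c ∈ B ^ (2 * (i + j)) := by
    rw [hc']
    exact S.mulMem hgh (S.invMem hhg) (by omega)
  have hceq : c * (h * g) = g * h := by rw [hc']; group
  have hc10 : c ∈ B ^ 10 := S.powMono (by omega) hcm
  have hgh10 : g * h ∈ B ^ 10 := S.powMono (by omega) hgh
  have hhg10 : h * g ∈ B ^ 10 := S.powMono (by omega) hhg
  have hg10 : g ∈ B ^ 10 := S.powMono (by omega) hg
  have hh10 : h ∈ B ^ 10 := S.powMono (by omega) hh
  have ax := S.mulx g hg10 h hh10 hgh10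
  have ay := S.muly g hg10 h hh10 hgh10
  have az := S.mulz g hg10 h hh10 hgh10
  have bx := S.mulx h hh10 g hg10 hhg10
  have by' := S.muly h hh10 g hg10 hhg10
  have bz := S.mulz h hh10 g hg10 hhg10
  have cx := S.mulx c hc10 (h * g) hhg10 (by rw [hceq]; exact hgh10)
  have cy := S.muly c hc10 (h * g) hhg10 (by rw [hceq]; exact hgh10)
  have cz := S.mulz c hc10 (h * g) hhg10 (by rw [hceq]; exact hgh10)
  rw [hceq] at cx cy cz
  have kx : X c = 0 := by linarith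
  have ky : Y c = 0 := by linarith
  refine ⟨hcm, ⟨kx, ky⟩, ?_⟩
  rw [kx, zero_mul, sub_zero] at cz
  have h30 : (30 : ℝ) / N = 3 * (10 / N) := by ring
  rw [h30]
  rw [abs_le] at *
  constructor <;> nlinarith [az.1, az.2, bz.1, bz.2, cz.1, cz.2]

/-- quotients of kernel elements -/
theorem div_facts (S : Setup B X Y Z N k C) {z w : G} (hz : z ∈ B ^ 10) (hw : w ∈ B ^ 10)
    (hzK : Ker X Y z) (hwK : Ker X Y w) (hzw : z⁻¹ * w ∈ B ^ 10) :
    Ker X Y (z⁻¹ * w) ∧ |Z (z⁻¹ * w) - (Z w - Z z)| ≤ 30 / N := by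
  obtain ⟨zx, zy⟩ := hzK
  obtain ⟨wx, wy⟩ := hwK
  obtain ⟨ix, iy, iz⟩ := S.inv_facts hz
  have hzi := S.invMem hz
  have ax := S.mulx z⁻¹ hzi w hw hzw
  have ay := S.muly z⁻¹ hzi w hw hzw
  have az := S.mulz z⁻¹ hzi w hw hzw
  refine ⟨⟨by rw [ax, ix, zx, wx]; ring, by rw [ay, iy, zy, wy]; ring⟩, ?_⟩
  rw [wy, mul_zero, sub_zero] at az
  rw [zx, zero_mul, sub_zero] at iz
  have h30 : (30 : ℝ) / N = 3 * (10 / N) := by ring
  have h20 : (20 : ℝ) / N = 2 * (10 / N) := by ring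
  rw [h20] at iz
  rw [h30]
  rw [abs_le] at *
  constructor <;> nlinarith [az.1, az.2, iz.1, iz.2]

/-- product of kernel elements -/
theorem mul_facts (S : Setup B X Y Z N k C) {z w : G} (hz : z ∈ B ^ 10) (hw : w ∈ B ^ 10)
    (hzK : Ker X Y z) (hwK : Ker X Y w) (hzw : z * w ∈ B ^ 10) :
    Ker X Y (z * w) ∧ |Z (z * w) - (Z z + Z w)| ≤ 10 / N := by
  obtain ⟨zx, zy⟩ := hzK
  obtain ⟨wx, wy⟩ := hwK
  have ax := S.mulx z hz w hw hzw
  have ay := S.muly z hz w hw hzw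
  have az := S.mulz z hz w hw hzw
  refine ⟨⟨by rw [ax, zx, wx]; ring, by rw [ay, zy, wy]; ring⟩, ?_⟩
  rw [wy, mul_zero, sub_zero] at az
  rw [abs_le] at *
  constructor <;> linarith [az.1, az.2]


/-- a choice of elements over the grid points -/
theorem grid_choice (S : Setup B X Y Z N k C) : ∃ β : ℤ → ℤ → G, ∀ i j : ℤ, |i| ≤ N → |j| ≤ N →
    β i j ∈ B ∧ X (β i j) = i / N ∧ Y (β i j) = j / N := by
  have h := S.onto
  choose! β hβ using h
  exact ⟨β, fun i j hi hj => ⟨(hβ i j hi hj).1, (hβ i j hi hj).2.1, (hβ i j hi hj).2.2⟩⟩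

/-- kernel elements with prescribed `Z` -/
theorem t_choice (S : Setup B X Y Z N k C) {β : ℤ → ℤ → G}
    (hβ : ∀ i j : ℤ, |i| ≤ N → |j| ≤ N → β i j ∈ B ∧ X (β i j) = i / N ∧ Y (β i j) = j / N)
    (i : ℤ) (hi : |i| ≤ N) :
    β i 0 * β 0 N * (β i 0)⁻¹ * (β 0 N)⁻¹ ∈ B ^ 4 ∧
    Ker X Y (β i 0 * β 0 N * (β i 0)⁻¹ * (β 0 N)⁻¹) ∧
    |Z (β i 0 * β 0 N * (β i 0)⁻¹ * (β 0 N)⁻¹) - i / N| ≤ 30 / N := by
  have hN : (0 : ℝ) < N := by exact_mod_cast S.hN
  obtain ⟨h1, h2, h3⟩ := hβ i 0 hi (by simp)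
  obtain ⟨h4, h5, h6⟩ := hβ 0 N (by simp) (by simp)
  have := S.comm_facts (i := 1) (j := 1) (g := β i 0) (h := β 0 N) (by rwa [pow_one])
    (by rwa [pow_one]) (by norm_num)
  refine ⟨this.1, this.2.1, ?_⟩
  have h7 := this.2.2
  rw [h2, h3, h5, h6] at h7
  have h8 : ((i : ℝ) / N * (((N : ℤ) : ℝ) / N) - ((0 : ℤ) : ℝ) / N * (((0 : ℤ) : ℝ) / N)) = i / N := by
    push_cast
    field_simp
    ring
  rw [h8] at h7
  exact h7

theorem card_F2 (S : Setup B X Y Z N k C) (M : ℕ) (F : Finset G)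
    (hF : ∀ z ∈ F, z ∈ B ^ 2 ∧ Ker X Y z ∧ |Z z| ≤ M / N) :
    F.card ≤ (2 * M + 100) * (k ^ 6 * C) := by
  classical
  obtain ⟨β, hβ⟩ := S.grid_choice
  have hN : (0 : ℝ) < N := by exact_mod_cast S.hN
  set L : ℕ := 2 * M + 100 with hL
  have hLpos : 0 < L := by omega
  set t : ℤ → G := fun i => β i 0 * β 0 N * (β i 0)⁻¹ * (β 0 N)⁻¹ with ht
  have htf := fun i hi => S.t_choice hβ i hi
  set P : Finset (G × ℕ × ℤ × ℤ) := F ×ˢ (Finset.range (N / L + 1) ×ˢ
    (Finset.Icc (-(N : ℤ)) N ×ˢ Finset.Icc (-(N : ℤ)) N)) with hP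
  let f : G × ℕ × ℤ × ℤ → G := fun p => p.1 * t ((p.2.1 * L : ℕ) : ℤ) * β p.2.2.1 p.2.2.2
  have hmemP : ∀ p ∈ P, p.1 ∈ F ∧ |((p.2.1 * L : ℕ) : ℤ)| ≤ N ∧ |p.2.2.1| ≤ (N : ℤ) ∧
      |p.2.2.2| ≤ (N : ℤ) := by
    rintro ⟨z, i, a, b⟩ hp
    simp only [hP, Finset.mem_product, Finset.mem_range, Finset.mem_Icc] at hp
    obtain ⟨h1, h2, h3, h4⟩ := hp
    refine ⟨h1, ?_, abs_le.mpr h3, abs_le.mpr h4⟩
    have h5 : i * L ≤ N := by
      calc i * L ≤ (N / L) * L := Nat.mul_le_mul_right _ (by omega)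
        _ ≤ N := Nat.div_mul_le_self N L
    rw [Nat.abs_cast]
    exact_mod_cast h5
  have hfB : ∀ p ∈ P, f p ∈ B ^ 7 := by
    intro p hp
    obtain ⟨h1, h2, h3, h4⟩ := hmemP p hp
    have h5 := (htf _ h2).1
    have h6 : p.1 * t ((p.2.1 * L : ℕ) : ℤ) ∈ B ^ 6 := S.mulMem (hF p.1 h1).1 h5 (by norm_num)
    exact S.mulMem h6 (S.memPow (hβ _ _ h3 h4).1 (le_refl 1)) (by norm_num)
  have hinj : Set.InjOn f (P : Set (G × ℕ × ℤ × ℤ)) := by
    rintro p hp q hq hpq
    rw [Finset.mem_coe] at hp hq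
    obtain ⟨p1, p2, p3, p4⟩ := hmemP p hp
    obtain ⟨q1, q2, q3, q4⟩ := hmemP q hq
    obtain ⟨pt1, pt2, pt3⟩ := htf _ p2
    obtain ⟨qt1, qt2, qt3⟩ := htf _ q2
    obtain ⟨pb1, pb2, pb3⟩ := hβ _ _ p3 p4
    obtain ⟨qb1, qb2, qb3⟩ := hβ _ _ q3 q4
    obtain ⟨pf1, pf2, pf3⟩ := hF _ p1
    obtain ⟨qf1, qf2, qf3⟩ := hF _ q1
    have pzt : p.1 * t ((p.2.1 * L : ℕ) : ℤ) ∈ B ^ 6 := S.mulMem pf1 pt1 (by norm_num)
    have qzt : q.1 * t ((q.2.1 * L : ℕ) : ℤ) ∈ B ^ 6 := S.mulMem qf1 qt1 (by norm_num)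
    have pm := S.mul_facts (S.powMono (by norm_num) pf1) (S.powMono (by norm_num) pt1) pf2 pt2
      (S.powMono (by norm_num) pzt)
    have qm := S.mul_facts (S.powMono (by norm_num) qf1) (S.powMono (by norm_num) qt1) qf2 qt2
      (S.powMono (by norm_num) qzt)
    have px := S.mulx _ (S.powMono (by norm_num) pzt) _ (S.memPow pb1 (by norm_num))
      (S.powMono (by norm_num) (hfB p hp))
    have qx := S.mulx _ (S.powMono (by norm_num) qzt) _ (S.memPow qb1 (by norm_num))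
      (S.powMono (by norm_num) (hfB q hq))
    have py := S.muly _ (S.powMono (by norm_num) pzt) _ (S.memPow pb1 (by norm_num))
      (S.powMono (by norm_num) (hfB p hp))
    have qy := S.muly _ (S.powMono (by norm_num) qzt) _ (S.memPow qb1 (by norm_num))
      (S.powMono (by norm_num) (hfB q hq))
    have hpq' : p.1 * t ((p.2.1 * L : ℕ) : ℤ) * β p.2.2.1 p.2.2.2
      = q.1 * t ((q.2.1 * L : ℕ) : ℤ) * β q.2.2.1 q.2.2.2 := hpq
    rw [hpq', qx, pm.1.1, qm.1.1, pb2, qb2, zero_add, zero_add] at px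
    rw [hpq', qy, pm.1.2, qm.1.2, pb3, qb3, zero_add, zero_add] at py
    have ea : q.2.2.1 = p.2.2.1 := by
      have := (div_left_inj' hN.ne').mp px
      exact_mod_cast this
    have eb : q.2.2.2 = p.2.2.2 := by
      have := (div_left_inj' hN.ne').mp py
      exact_mod_cast this
    rw [ea, eb] at hpq'
    have hzt := mul_right_cancel hpq'
    -- compare the Z values
    have pz := pm.2
    have qz := qm.2
    rw [hzt] at pz
    have ei : p.2.1 = q.2.1 := by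
      by_contra hne
      have hge : (1 : ℝ) ≤ |(p.2.1 : ℝ) - (q.2.1 : ℝ)| := by
        have h1 : (1 : ℤ) ≤ |(p.2.1 : ℤ) - (q.2.1 : ℤ)| := by
          apply Int.one_le_abs
          omega
        exact_mod_cast h1
      have hge2 : (L : ℝ) / N ≤ |((p.2.1 * L : ℕ) : ℝ) / N - ((q.2.1 * L : ℕ) : ℝ) / N| := by
        have : ((p.2.1 * L : ℕ) : ℝ) / N - ((q.2.1 * L : ℕ) : ℝ) / N
            = ((p.2.1 : ℝ) - (q.2.1 : ℝ)) * ((L : ℝ) / N) := by
          push_cast
          ring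
        rw [this, abs_mul, abs_of_nonneg (show (0 : ℝ) ≤ (L : ℝ) / N by positivity)]
        have : (0 : ℝ) ≤ (L : ℝ) / N := by positivity
        nlinarith
      have hLr : (L : ℝ) / N = 2 * (M / N) + 10 * (10 / N) := by
        rw [hL]
        push_cast
        ring
      have h30 : (30 : ℝ) / N = 3 * (10 / N) := by ring
      have heps := S.eps_pos
      rw [h30] at pt3 qt3
      have hlt : |((p.2.1 * L : ℕ) : ℝ) / N - ((q.2.1 * L : ℕ) : ℝ) / N| ≤ 2 * (M / N) + 8 * (10 / N) := by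
        simp only [Int.cast_natCast] at pt3 qt3
        rw [abs_le] at *
        constructor <;> linarith [pt3.1, pt3.2, qt3.1, qt3.2, pz.1, pz.2, qz.1, qz.2, pf3.1, pf3.2,
          qf3.1, qf3.2]
      linarith
    rw [ei] at hzt
    have ez := mul_right_cancel hzt
    exact Prod.ext ez (Prod.ext ei (Prod.ext ea.symm eb.symm))
  have hcard : P.card ≤ (B ^ 7).card := Finset.card_le_card_of_injOn f hfB hinj
  have hPc : P.card = F.card * ((N / L + 1) * ((2 * N + 1) * (2 * N + 1))) := by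
    rw [hP, Finset.card_product, Finset.card_product, Finset.card_product, Finset.card_range,
      Int.card_Icc]
    have : ((N : ℤ) + 1 - -(N : ℤ)).toNat = 2 * N + 1 := by omega
    rw [this]
  have hB7 := S.cardPow 6
  have hdiv : N ≤ L * (N / L + 1) := by
    have := Nat.lt_mul_div_succ N hLpos
    omega
  have h2 : F.card * N ^ 3 ≤ (L * (k ^ 6 * C)) * N ^ 3 := by
    calc F.card * N ^ 3 = F.card * (N * (N * N)) := by ring
      _ ≤ F.card * ((L * (N / L + 1)) * ((2 * N + 1) * (2 * N + 1))) := by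
          apply Nat.mul_le_mul_left
          apply Nat.mul_le_mul hdiv
          apply Nat.mul_le_mul <;> omega
      _ = L * (F.card * ((N / L + 1) * ((2 * N + 1) * (2 * N + 1)))) := by ring
      _ = L * P.card := by rw [hPc]
      _ ≤ L * (k ^ 6 * (C * N ^ 3)) := Nat.mul_le_mul_left _ (hcard.trans hB7)
      _ = (L * (k ^ 6 * C)) * N ^ 3 := by ring
  exact Nat.le_of_mul_le_mul_right h2 (pow_pos S.hN 3)

/-- the basic covering bound in the kernel -/
theorem card_V (S : Setup B X Y Z N k C) (M : ℕ) (V : Finset G)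
    (hV : ∀ v ∈ V, v ∈ B ^ 10 ∧ Ker X Y v)
    (hd : ∀ v ∈ V, ∀ w ∈ V, |Z v - Z w| ≤ M / N) :
    V.card ≤ (2 * (M + 30) + 100) * (k ^ 6 * C) * k ^ 9 := by
  classical
  obtain ⟨W, hW, hc⟩ := S.coverPow
  have h1 : ∀ v ∈ V, ∃ w ∈ W ^ 9, w⁻¹ * v ∈ B := by
    intro v hv
    obtain ⟨w, hw, b, hb, rfl⟩ := Finset.mem_mul.mp (hc 9 (hV v hv).1)
    exact ⟨w, hw, by rwa [inv_mul_cancel_left]⟩
  choose! w hw hwB using h1
  have h2 : V.card ≤ ((2 * (M + 30) + 100) * (k ^ 6 * C)) * (W ^ 9).card := by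
    refine Finset.card_le_mul_card_image_of_maps_to (f := w) hw _ ?_
    intro u hu
    rcases Finset.eq_empty_or_nonempty (V.filter (fun v => w v = u)) with he | ⟨v₀, hv₀⟩
    · rw [he]
      simp
    · rw [Finset.mem_filter] at hv₀
      have hinj : Set.InjOn (fun v => v₀⁻¹ * v) (V.filter (fun v => w v = u) : Set G) :=
        fun a _ b _ hab => mul_left_cancel hab
      rw [← Finset.card_image_of_injOn hinj]
      have := S.card_F2 (M + 30) ((V.filter (fun v => w v = u)).image (fun v => v₀⁻¹ * v)) (by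
        intro z hz
        obtain ⟨v, hv, rfl⟩ := Finset.mem_image.mp hz
        rw [Finset.mem_filter] at hv
        have hb : v₀⁻¹ * v ∈ B ^ 2 := by
          have e : v₀⁻¹ * v = (u⁻¹ * v₀)⁻¹ * (u⁻¹ * v) := by group
          rw [e, pow_two]
          refine Finset.mul_mem_mul (S.inv _ ?_) ?_
          · rw [← hv₀.2]; exact hwB v₀ hv₀.1
          · rw [← hv.2]; exact hwB v hv.1
        obtain ⟨a1, a2⟩ := S.div_facts (hV v₀ hv₀.1).1 (hV v hv.1).1 (hV v₀ hv₀.1).2 (hV v hv.1).2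
          (S.powMono (by norm_num) hb)
        refine ⟨hb, a1, ?_⟩
        have a3 := hd v hv.1 v₀ hv₀.1
        have a4 : (((M + 30 : ℕ) : ℝ)) / N = M / N + 30 / N := by push_cast; ring
        rw [a4]
        rw [abs_le] at *
        constructor <;> linarith [a2.1, a2.2, a3.1, a3.2])
      exact this
  calc V.card ≤ ((2 * (M + 30) + 100) * (k ^ 6 * C)) * (W ^ 9).card := h2
    _ ≤ ((2 * (M + 30) + 100) * (k ^ 6 * C)) * k ^ 9 := by
      apply Nat.mul_le_mul_left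
      exact Finset.card_pow_le.trans (Nat.pow_le_pow_left hW 9)


/-- crude bounds on powers of `B` -/
theorem bd_pow (S : Setup B X Y Z N k C) (j : ℕ) (hj : j + 1 ≤ 10) :
    ∀ x ∈ B ^ (j + 1), |X x| ≤ 10 * ((j + 1 : ℕ) : ℝ) ∧ |Z x| ≤ 100 * ((j + 1 : ℕ) : ℝ) ^ 2 := by
  have hN1 : (10 : ℝ) / N ≤ 10 := by
    have h1 : (1 : ℝ) ≤ N := by exact_mod_cast S.hN
    exact div_le_self (by norm_num) h1
  induction j with
  | zero =>
    intro x hx
    rw [zero_add, pow_one] at hx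
    have h1 := S.bdx x hx
    have h2 := S.bdz x hx
    constructor
    · simpa using h1
    · have : (100 : ℝ) * ((0 + 1 : ℕ) : ℝ) ^ 2 = 100 := by norm_num
      rw [this]
      linarith
  | succ n ih =>
    intro x hx
    have hx10 : x ∈ B ^ 10 := S.powMono hj hx
    rw [pow_succ] at hx
    obtain ⟨a, ha, b, hb, rfl⟩ := Finset.mem_mul.mp hx
    obtain ⟨h1, h2⟩ := ih (by omega) a ha
    have hax := S.mulx a (S.powMono (by omega) ha) b (S.memPow hb (by norm_num)) hx10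
    have haz := S.mulz a (S.powMono (by omega) ha) b (S.memPow hb (by norm_num)) hx10
    have hbx := S.bdx b hb
    have hby := S.bdy b hb
    have hbz := S.bdz b hb
    have hprod : |X a * Y b| ≤ (10 * ((n + 1 : ℕ) : ℝ)) * 10 := by
      rw [abs_mul]
      exact mul_le_mul h1 hby (abs_nonneg _) (by positivity)
    push_cast at *
    constructor
    · rw [hax]
      calc |X a + X b| ≤ |X a| + |X b| := abs_add_le _ _
        _ ≤ 10 * ((n : ℝ) + 1 + 1) := by linarith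
    · have h3 : |Z (a * b)| ≤ |Z a| + |Z b| + |X a * Y b| + 10 / N := by
        have h4 : Z (a * b) = (Z (a * b) - Z a - Z b - X a * Y b) + (Z a + Z b + X a * Y b) := by ring
        calc |Z (a * b)| = |(Z (a * b) - Z a - Z b - X a * Y b) + (Z a + Z b + X a * Y b)| := by
              rw [← h4]
          _ ≤ |Z (a * b) - Z a - Z b - X a * Y b| + |Z a + Z b + X a * Y b| := abs_add_le _ _
          _ ≤ 10 / N + (|Z a| + |Z b| + |X a * Y b|) := add_le_add haz (abs_add_three _ _ _)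
          _ = _ := by ring
      have hn : (0 : ℝ) ≤ n := Nat.cast_nonneg n
      nlinarith

/-- the number `P` bounding all local counts -/
def cP (k C : ℕ) : ℕ := (2 * (200 + 30) + 100) * (k ^ 6 * C) * k ^ 9

def cQ (k C : ℕ) : ℕ := cP k C + k ^ 3 * 6401

def cD (k C : ℕ) : ℕ := cP k C ^ cQ k C

theorem one_le_cP (S : Setup B X Y Z N k C) : 1 ≤ cP k C := by
  have h := S.card_V 200 {1} (by
    intro v hv
    rw [Finset.mem_singleton] at hv
    subst hv
    exact ⟨S.memPow S.one (by norm_num), S.one_facts.1, S.one_facts.2.1⟩) (by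
    intro v hv w hw
    rw [Finset.mem_singleton] at hv hw
    subst hv
    subst hw
    rw [sub_self, abs_zero]
    positivity)
  rw [Finset.card_singleton] at h
  exact h

/-- the small kernel elements of `B ^ 8` -/
theorem card_F8 (S : Setup B X Y Z N k C) (F : Finset G)
    (hF : ∀ z ∈ F, z ∈ B ^ 8 ∧ Ker X Y z ∧ |Z z| ≤ 100 / N) : F.card ≤ cP k C := by
  refine S.card_V 200 F (fun v hv => ⟨S.powMono (by norm_num) (hF v hv).1, (hF v hv).2.1⟩) ?_
  intro v hv w hw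
  have h1 := (hF v hv).2.2
  have h2 := (hF w hw).2.2
  have h3 : ((200 : ℕ) : ℝ) / N = 100 / N + 100 / N := by push_cast; ring
  rw [h3]
  rw [abs_le] at *
  constructor <;> linarith [h1.1, h1.2, h2.1, h2.2]

/-- a bounded set of kernel elements controls all kernel elements of `B ^ 4` and the small ones of
`B ^ 8` -/
theorem control (S : Setup B X Y Z N k C) (hN60 : 60 ≤ N) : ∃ Φ : Finset G,
    Φ.card ≤ cQ k C ∧ (∀ z ∈ Φ, z ∈ B ^ 8 ∧ Ker X Y z) ∧
    ∀ h : G, (∀ z ∈ Φ, Commute h z) →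
      (∀ z ∈ B ^ 8, Ker X Y z → |Z z| ≤ 100 / N → Commute h z) ∧
      (∀ z ∈ B ^ 4, Ker X Y z → Commute h z) := by
  classical
  have hN : (0 : ℝ) < N := by exact_mod_cast S.hN
  obtain ⟨β, hβ⟩ := S.grid_choice
  set t : ℤ → G := fun i => β i 0 * β 0 N * (β i 0)⁻¹ * (β 0 N)⁻¹ with ht
  have htf : ∀ i : ℤ, |i| ≤ N → t i ∈ B ^ 4 ∧ Ker X Y (t i) ∧ |Z (t i) - i / N| ≤ 30 / N :=
    fun i hi => S.t_choice hβ i hi
  obtain ⟨W, hW, hc⟩ := S.coverPow
  -- small elements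
  set F8 : Finset G := (B ^ 8).filter (fun z => Ker X Y z ∧ |Z z| ≤ 100 / N) with hF8
  have hF8mem : ∀ z ∈ F8, z ∈ B ^ 8 ∧ Ker X Y z ∧ |Z z| ≤ 100 / N := by
    intro z hz
    rw [hF8, Finset.mem_filter] at hz
    exact hz
  have hF8card := S.card_F8 F8 hF8mem
  -- kernel elements of B^4
  set Z4 : Finset G := (B ^ 4).filter (fun z => Ker X Y z) with hZ4
  have hZ4mem : ∀ z, z ∈ Z4 ↔ z ∈ B ^ 4 ∧ Ker X Y z := by
    intro z
    rw [hZ4, Finset.mem_filter]
  have h1 : ∀ v ∈ Z4, ∃ w ∈ W ^ 3, w⁻¹ * v ∈ B := by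
    intro v hv
    obtain ⟨w, hw, b, hb, rfl⟩ := Finset.mem_mul.mp (hc 3 ((hZ4mem v).mp hv).1)
    exact ⟨w, hw, by rwa [inv_mul_cancel_left]⟩
  choose! w hw hwB using h1
  let key : G → G × ℤ := fun z => (w z, ⌊2 * Z z⌋)
  set T : Finset (G × ℤ) := Z4.image key with hT
  have hr : ∀ κ ∈ T, ∃ r ∈ Z4, key r = κ := by
    intro κ hκ
    exact Finset.mem_image.mp hκ
  choose! r hrZ hrk using hr
  have hTsub : T ⊆ (W ^ 3) ×ˢ (Finset.Icc (-3200 : ℤ) 3200) := by
    intro κ hκ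
    obtain ⟨z, hz, rfl⟩ := Finset.mem_image.mp hκ
    rw [Finset.mem_product]
    refine ⟨hw z hz, ?_⟩
    have hb := (S.bd_pow 3 (by norm_num) z ((hZ4mem z).mp hz).1).2
    rw [Finset.mem_Icc]
    have h1600 : (100 : ℝ) * ((3 + 1 : ℕ) : ℝ) ^ 2 = 1600 := by norm_num
    rw [h1600, abs_le] at hb
    constructor
    · show (-3200 : ℤ) ≤ ⌊2 * Z z⌋
      rw [Int.le_floor]
      push_cast
      linarith
    · show ⌊2 * Z z⌋ ≤ 3200
      have : ⌊2 * Z z⌋ ≤ ⌊(3200 : ℝ)⌋ := Int.floor_le_floor (by linarith)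
      simpa using this
  have hTcard : T.card ≤ k ^ 3 * 6401 := by
    calc T.card ≤ ((W ^ 3) ×ˢ (Finset.Icc (-3200 : ℤ) 3200)).card := Finset.card_le_card hTsub
      _ = (W ^ 3).card * 6401 := by
        rw [Finset.card_product, Int.card_Icc]
        rfl
      _ ≤ k ^ 3 * 6401 :=
        Nat.mul_le_mul_right _ (Finset.card_pow_le.trans (Nat.pow_le_pow_left hW 3))
  refine ⟨F8 ∪ T.image r, ?_, ?_, ?_⟩
  · calc (F8 ∪ T.image r).card ≤ F8.card + (T.image r).card := Finset.card_union_le _ _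
      _ ≤ cP k C + k ^ 3 * 6401 := add_le_add hF8card (Finset.card_image_le.trans hTcard)
  · intro z hz
    rw [Finset.mem_union] at hz
    rcases hz with hz | hz
    · exact ⟨(hF8mem z hz).1, (hF8mem z hz).2.1⟩
    · obtain ⟨κ, hκ, rfl⟩ := Finset.mem_image.mp hz
      have := (hZ4mem _).mp (hrZ κ hκ)
      exact ⟨S.powMono (by norm_num) this.1, this.2⟩
  · intro h hcom
    have hA : ∀ z ∈ B ^ 8, Ker X Y z → |Z z| ≤ 100 / N → Commute h z := by
      intro z hz hzK hzZ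
      refine hcom z (Finset.mem_union_left _ ?_)
      rw [hF8, Finset.mem_filter]
      exact ⟨hz, hzK, hzZ⟩
    refine ⟨hA, ?_⟩
    -- step between neighbouring t's
    have hstep : ∀ i j : ℤ, |i| ≤ N → |j| ≤ N → |i - j| ≤ 1 → Commute h (t i) → Commute h (t j) := by
      intro i j hi hj hij hci
      obtain ⟨a1, a2, a3⟩ := htf i hi
      obtain ⟨b1, b2, b3⟩ := htf j hj
      have hm : (t i)⁻¹ * t j ∈ B ^ 8 := S.mulMem (S.invMem a1) b1 (by norm_num)
      obtain ⟨d1, d2⟩ := S.div_facts (S.powMono (by norm_num) a1) (S.powMono (by norm_num) b1) a2 b2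
        (S.powMono (by norm_num) hm)
      have hijr : |(i : ℝ) / N - j / N| ≤ 1 / N := by
        rw [← sub_div, abs_div, abs_of_pos hN]
        apply div_le_div_of_nonneg_right _ hN.le
        exact_mod_cast hij
      have hsmall : |Z ((t i)⁻¹ * t j)| ≤ 100 / N := by
        have e1 : (100 : ℝ) / N = 1 / N + 99 / N := by ring
        have e2 : (99 : ℝ) / N = 3 * (30 / N) + 9 / N := by ring
        have e3 : (0 : ℝ) < 9 / N := by positivity
        rw [abs_le] at *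
        constructor <;> linarith [a3.1, a3.2, b3.1, b3.2, d2.1, d2.2, hijr.1, hijr.2]
      have := hA _ hm d1 hsmall
      have h2 := Commute.mul_right hci this
      rwa [mul_inv_cancel_left] at h2
    have ht0 : Commute h (t 0) := by
      obtain ⟨a1, a2, a3⟩ := htf 0 (by simp)
      refine hA _ (S.powMono (by norm_num) a1) a2 ?_
      have e1 : (100 : ℝ) / N = 30 / N + 70 / N := by ring
      have e3 : (0 : ℝ) < 70 / N := by positivity
      rw [Int.cast_zero, zero_div, sub_zero] at a3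
      linarith
    have htall : ∀ n : ℕ, (n : ℤ) ≤ N → Commute h (t n) ∧ Commute h (t (-(n : ℤ))) := by
      intro n
      induction n with
      | zero => intro _; exact ⟨by simpa using ht0, by simpa using ht0⟩
      | succ n ih =>
        intro hn
        obtain ⟨i1, i2⟩ := ih (by push_cast at hn; omega)
        push_cast at hn ⊢
        constructor
        · refine hstep n (n + 1) ?_ ?_ ?_ i1
          · rw [abs_of_nonneg (by omega)]; omega
          · rw [abs_of_nonneg (by omega)]; omega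
          · rw [abs_le]; omega
        · refine hstep (-(n : ℤ)) (-((n : ℤ) + 1)) ?_ ?_ ?_ i2
          · rw [abs_neg, abs_of_nonneg (by omega)]; omega
          · rw [abs_neg, abs_of_nonneg (by omega)]; omega
          · rw [abs_le]; omega
    have htcomm : ∀ i : ℤ, |i| ≤ N → Commute h (t i) := by
      intro i hi
      rcases Int.eq_nat_or_neg i with ⟨n, hn | hn⟩
      · subst hn
        rw [Nat.abs_cast] at hi
        exact (htall n hi).1
      · subst hn
        rw [abs_neg, Nat.abs_cast] at hi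
        exact (htall n hi).2
    intro z hz hzK
    have hz4 : z ∈ Z4 := (hZ4mem z).mpr ⟨hz, hzK⟩
    have hκ : key z ∈ T := Finset.mem_image_of_mem _ hz4
    obtain ⟨r1, r2⟩ := (hZ4mem _).mp (hrZ _ hκ)
    have rk := hrk _ hκ
    set ρ := r (key z) with hρ
    have rw1 : w ρ = w z := congrArg Prod.fst rk
    have rw2 : ⌊2 * Z ρ⌋ = ⌊2 * Z z⌋ := congrArg Prod.snd rk
    have hv2 : ρ⁻¹ * z ∈ B ^ 2 := by
      have e : ρ⁻¹ * z = ((w z)⁻¹ * ρ)⁻¹ * ((w z)⁻¹ * z) := by group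
      rw [e, pow_two]
      refine Finset.mul_mem_mul (S.inv _ ?_) (hwB z hz4)
      rw [← rw1]
      exact hwB ρ (hrZ _ hκ)
    obtain ⟨v1, v2⟩ := S.div_facts (S.powMono (by norm_num) r1) (S.powMono (by norm_num) hz) r2 hzK
      (S.powMono (by norm_num) hv2)
    have hfl := Int.abs_sub_lt_one_of_floor_eq_floor rw2
    have hZv : |Z (ρ⁻¹ * z)| ≤ 1 := by
      have e1 : (30 : ℝ) / N ≤ 1 / 2 := by
        rw [div_le_div_iff₀ hN (by norm_num)]
        have : (60 : ℝ) ≤ N := by exact_mod_cast hN60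
        linarith
      rw [abs_lt] at hfl
      rw [abs_le] at *
      constructor <;> linarith [v2.1, v2.2, hfl.1, hfl.2]
    set i : ℤ := ⌊Z (ρ⁻¹ * z) * N⌋ with hi
    have hiN : |i| ≤ (N : ℤ) := by
      rw [abs_le] at hZv ⊢
      constructor
      · rw [hi, Int.le_floor]
        push_cast
        nlinarith [hZv.1]
      · have h5 : ⌊Z (ρ⁻¹ * z) * N⌋ ≤ ⌊((N : ℤ) : ℝ)⌋ := by
          apply Int.floor_le_floor
          push_cast
          nlinarith [hZv.2]
        rw [Int.floor_intCast] at h5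
        exact h5
    have hiv : |Z (ρ⁻¹ * z) - i / N| ≤ 1 / N := by
      have h5 : Z (ρ⁻¹ * z) - i / N = (Z (ρ⁻¹ * z) * N - i) / N := by
        field_simp
      rw [h5, abs_div, abs_of_pos hN]
      apply div_le_div_of_nonneg_right _ hN.le
      rw [abs_le]
      constructor
      · linarith [Int.floor_le (Z (ρ⁻¹ * z) * N)]
      · linarith [Int.lt_floor_add_one (Z (ρ⁻¹ * z) * N)]
    obtain ⟨a1, a2, a3⟩ := htf i hiN
    have hf6 : (t i)⁻¹ * (ρ⁻¹ * z) ∈ B ^ 6 := S.mulMem (S.invMem a1) hv2 (by norm_num)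
    obtain ⟨f1, f2⟩ := S.div_facts (S.powMono (by norm_num) a1) (S.powMono (by norm_num) hv2) a2 v1
        (S.powMono (by norm_num) hf6)
    have hsmall : |Z ((t i)⁻¹ * (ρ⁻¹ * z))| ≤ 100 / N := by
      have e1 : (100 : ℝ) / N = 1 / N + 2 * (30 / N) + 39 / N := by ring
      have e3 : (0 : ℝ) < 39 / N := by positivity
      rw [abs_le] at *
      constructor <;> linarith [a3.1, a3.2, hiv.1, hiv.2, f2.1, f2.2]
    have c1 := hA _ (S.powMono (by norm_num) hf6) f1 hsmall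
    have c2 : Commute h ρ := hcom ρ (Finset.mem_union_right _ (Finset.mem_image_of_mem r hκ))
    have c3 := (c2.mul_right (htcomm i hiN)).mul_right c1
    have : ρ * t i * ((t i)⁻¹ * (ρ⁻¹ * z)) = z := by group
    rwa [this] at c3

/-- pigeonhole: among many elements of `B` two have a quotient centralising `Φ` -/
theorem pigeon (S : Setup B X Y Z N k C) (Φ : Finset G) (hΦ : Φ.card ≤ cQ k C)
    (hΦm : ∀ z ∈ Φ, z ∈ B ^ 8 ∧ Ker X Y z) (b : ℕ → G) (hb : ∀ j ≤ cD k C, b j ∈ B) :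
    ∃ i j, i < j ∧ j ≤ cD k C ∧ ∀ z ∈ Φ, Commute ((b i)⁻¹ * b j) z := by
  classical
  let T : {z // z ∈ Φ} → Finset G := fun z => B.image (fun b => b * z.1 * b⁻¹)
  have hTcard : ∀ z, (T z).card ≤ cP k C := by
    intro z
    obtain ⟨z8, zK⟩ := hΦm z.1 z.2
    refine S.card_V 200 (T z) ?_ ?_
    · intro v hv
      obtain ⟨a, ha, rfl⟩ := Finset.mem_image.mp hv
      obtain ⟨c1, c2, c3⟩ := S.conj_facts z8 zK ha
      exact ⟨c1, c2⟩
    · intro v hv u hu
      obtain ⟨a, ha, rfl⟩ := Finset.mem_image.mp hv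
      obtain ⟨a', ha', rfl⟩ := Finset.mem_image.mp hu
      obtain ⟨_, _, c3⟩ := S.conj_facts z8 zK ha
      obtain ⟨_, _, c3'⟩ := S.conj_facts z8 zK ha'
      have e : ((200 : ℕ) : ℝ) / N = 40 / N + 40 / N + 12 * (10 / N) := by push_cast; ring
      have heps := S.eps_pos
      rw [e]
      rw [abs_le] at *
      constructor <;> linarith [c3.1, c3.2, c3'.1, c3'.2]
  have hpi : (Fintype.piFinset T).card ≤ cD k C := by
    rw [Fintype.card_piFinset]
    calc ∏ z, (T z).card ≤ ∏ _z : {z // z ∈ Φ}, cP k C := Finset.prod_le_prod' fun z _ => hTcard z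
      _ = cP k C ^ Φ.card := by
        rw [Finset.prod_const, Finset.card_univ, Fintype.card_coe]
      _ ≤ cD k C := Nat.pow_le_pow_right S.one_le_cP hΦ
  let f : ℕ → ({z // z ∈ Φ} → G) := fun j z => b j * z.1 * (b j)⁻¹
  obtain ⟨i, hi, j, hj, hij, hf⟩ := Finset.exists_ne_map_eq_of_card_lt_of_maps_to
    (s := Finset.range (cD k C + 1)) (t := Fintype.piFinset T) (f := f)
    (by rw [Finset.card_range]; omega) (by
      intro j hj
      rw [Finset.mem_coe, Finset.mem_range] at hj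
      rw [Finset.mem_coe, Fintype.mem_piFinset]
      intro z
      exact Finset.mem_image_of_mem _ (hb j (by omega)))
  rw [Finset.mem_range] at hi hj
  have key : ∀ i j : ℕ, f i = f j → ∀ z ∈ Φ, Commute ((b i)⁻¹ * b j) z := by
    intro i j hf z hz
    have h1 : b i * z * (b i)⁻¹ = b j * z * (b j)⁻¹ := congrFun hf ⟨z, hz⟩
    show (b i)⁻¹ * b j * z = z * ((b i)⁻¹ * b j)
    have h2 : b j * z = b i * z * (b i)⁻¹ * b j := by rw [h1]; group
    calc (b i)⁻¹ * b j * z = (b i)⁻¹ * (b j * z) := by group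
      _ = (b i)⁻¹ * (b i * z * (b i)⁻¹ * b j) := by rw [h2]
      _ = z * ((b i)⁻¹ * b j) := by group
  rcases Nat.lt_or_gt_of_ne hij with h | h
  · exact ⟨i, j, h, by omega, key i j hf⟩
  · exact ⟨j, i, h, by omega, key j i hf.symm⟩


/-- The contradiction: a small approximate group cannot carry such a map. -/
theorem absurd_of_large (S : Setup B X Y Z N k C) (hN60 : 60 ≤ N)
    (hbig : (160 * cP k C ^ 2 * cD k C ^ 3) ^ 2 ≤ N) : False := by
  classical
  have hN : (0 : ℝ) < N := by exact_mod_cast S.hN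
  obtain ⟨Φ, hΦc, hΦm, hΦ⟩ := S.control hN60
  obtain ⟨β, hβ⟩ := S.grid_choice
  have hP1 : 1 ≤ cP k C := S.one_le_cP
  have hD1 : 1 ≤ cD k C := Nat.one_le_pow _ _ hP1
  have hpig := fun b hb => S.pigeon Φ hΦc hΦm b hb
  have hF8 := fun F hF => S.card_F8 F hF
  generalize cP k C = P at *
  generalize cD k C = D at *
  have hPD : 0 < P * D ^ 2 := by positivity
  -- the scale `R`
  obtain ⟨R, hR⟩ : ∃ R, R = Nat.sqrt (N / (P * D ^ 2)) := ⟨_, rfl⟩
  have hR1 : R * R ≤ N / (P * D ^ 2) := by rw [hR]; exact Nat.sqrt_le _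
  have hR2 : N / (P * D ^ 2) < (R + 1) * (R + 1) := by rw [hR]; exact Nat.lt_succ_sqrt _
  have hR3 : R * R * (P * D ^ 2) ≤ N := (Nat.mul_le_mul_right _ hR1).trans (Nat.div_mul_le_self _ _)
  have hbig1 : 160 * P ^ 2 * D ^ 3 ≤ Nat.sqrt N := Nat.le_sqrt'.mpr hbig
  have hRN : R ≤ Nat.sqrt N := by
    rw [hR]
    exact Nat.sqrt_le_sqrt (Nat.div_le_self _ _)
  have hrange : 160 * P ^ 2 * D ^ 3 * R ≤ N :=
    (Nat.mul_le_mul hbig1 hRN).trans (Nat.sqrt_le N)
  have hPDN : P * D ^ 2 ≤ N := by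
    calc P * D ^ 2 ≤ (160 * P ^ 2 * D ^ 3) ^ 2 := by
          have h1 : P * D ^ 2 ≤ 160 * P ^ 2 * D ^ 3 := by
            have e : 160 * P ^ 2 * D ^ 3 = (P * D ^ 2) * (160 * P * D) := by ring
            rw [e]
            exact Nat.le_mul_of_pos_right _ (by positivity)
          exact h1.trans (Nat.le_self_pow (by norm_num) _)
      _ ≤ N := hbig
  have hR0 : 1 ≤ R := by
    rw [hR]
    exact Nat.le_sqrt'.mpr (by rw [one_pow]; exact (Nat.one_le_div_iff hPD).mpr hPDN)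
  have hR4 : N < 4 * (P * D ^ 2) * (R * R) := by
    have h1 : N < (P * D ^ 2) * (N / (P * D ^ 2) + 1) := Nat.lt_mul_div_succ N hPD
    have h2 : N / (P * D ^ 2) + 1 ≤ (R + 1) * (R + 1) := hR2
    have h3 : (R + 1) * (R + 1) ≤ 4 * (R * R) := by nlinarith
    calc N < (P * D ^ 2) * (N / (P * D ^ 2) + 1) := h1
      _ ≤ (P * D ^ 2) * (4 * (R * R)) := Nat.mul_le_mul_left _ (h2.trans h3)
      _ = 4 * (P * D ^ 2) * (R * R) := by ring
  have hDR : D * R ≤ N := by
    refine le_trans (Nat.mul_le_mul_right R ?_) hrange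
    have e : 160 * P ^ 2 * D ^ 3 = D * (160 * P ^ 2 * D ^ 2) := by ring
    rw [e]
    exact Nat.le_mul_of_pos_right _ (by positivity)
  -- `g`
  have hpos : ∀ j ≤ D, |((j * R : ℕ) : ℤ)| ≤ (N : ℤ) := by
    intro j hj
    rw [Nat.abs_cast]
    exact_mod_cast (Nat.mul_le_mul_right R hj).trans hDR
  have h0 : |(0 : ℤ)| ≤ (N : ℤ) := by simp
  obtain ⟨i, j, hij, hjD, hgΦ⟩ := hpig (fun j => β ((j * R : ℕ) : ℤ) 0)
    (fun j hj => (hβ _ 0 (hpos j hj) h0).1)
  obtain ⟨i', j', hij', hjD', hhΦ⟩ := hpig (fun j => β 0 ((j * R : ℕ) : ℤ))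
    (fun j hj => (hβ 0 _ h0 (hpos j hj)).1)
  obtain ⟨s, hs⟩ : ∃ s, j = i + s := ⟨j - i, by omega⟩
  obtain ⟨s', hs'⟩ : ∃ s', j' = i' + s' := ⟨j' - i', by omega⟩
  have hs1 : 1 ≤ s := by omega
  have hs1' : 1 ≤ s' := by omega
  have hsD : s ≤ D := by omega
  have hsD' : s' ≤ D := by omega
  obtain ⟨a1, a2, a3⟩ := hβ _ 0 (hpos i (by omega)) h0
  obtain ⟨b1, b2, b3⟩ := hβ _ 0 (hpos j (by omega)) h0
  obtain ⟨a1', a2', a3'⟩ := hβ 0 _ h0 (hpos i' (by omega))
  obtain ⟨b1', b2', b3'⟩ := hβ 0 _ h0 (hpos j' (by omega))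
  obtain ⟨g, hg⟩ : ∃ g, g = (β ((i * R : ℕ) : ℤ) 0)⁻¹ * β ((j * R : ℕ) : ℤ) 0 := ⟨_, rfl⟩
  obtain ⟨h, hh⟩ : ∃ h, h = (β 0 ((i' * R : ℕ) : ℤ))⁻¹ * β 0 ((j' * R : ℕ) : ℤ) := ⟨_, rfl⟩
  have hgΦ' : ∀ z ∈ Φ, Commute g z := by rw [hg]; exact hgΦ
  have hhΦ' : ∀ z ∈ Φ, Commute h z := by rw [hh]; exact hhΦ
  obtain ⟨g8, g4⟩ := hΦ g hgΦ'
  obtain ⟨h8, h4⟩ := hΦ h hhΦ'
  have hg2 : g ∈ B ^ 2 := by
    rw [hg, pow_two]
    exact Finset.mul_mem_mul (S.inv _ a1) b1
  have hh2 : h ∈ B ^ 2 := by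
    rw [hh, pow_two]
    exact Finset.mul_mem_mul (S.inv _ a1') b1'
  have hgX : X g = ((s * R : ℕ) : ℝ) / N ∧ Y g = 0 := by
    obtain ⟨ix, iy, _⟩ := S.inv_facts (S.memPow a1 (by norm_num))
    have e1 := S.mulx _ (S.invMem (S.memPow a1 (by norm_num))) _ (S.memPow b1 (by norm_num))
      (by rw [← hg]; exact S.powMono (by norm_num) hg2)
    have e2 := S.muly _ (S.invMem (S.memPow a1 (by norm_num))) _ (S.memPow b1 (by norm_num))
      (by rw [← hg]; exact S.powMono (by norm_num) hg2)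
    rw [← hg] at e1 e2
    constructor
    · rw [e1, ix, a2, b2, hs]
      push_cast
      ring
    · rw [e2, iy, a3, b3]
      push_cast
      ring
  have hhY : X h = 0 ∧ Y h = ((s' * R : ℕ) : ℝ) / N := by
    obtain ⟨ix, iy, _⟩ := S.inv_facts (S.memPow a1' (by norm_num))
    have e1 := S.mulx _ (S.invMem (S.memPow a1' (by norm_num))) _ (S.memPow b1' (by norm_num))
      (by rw [← hh]; exact S.powMono (by norm_num) hh2)
    have e2 := S.muly _ (S.invMem (S.memPow a1' (by norm_num))) _ (S.memPow b1' (by norm_num))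
      (by rw [← hh]; exact S.powMono (by norm_num) hh2)
    rw [← hh] at e1 e2
    constructor
    · rw [e1, ix, a2', b2']
      push_cast
      ring
    · rw [e2, iy, a3', b3', hs']
      push_cast
      ring
  obtain ⟨hgX, hgY⟩ := hgX
  obtain ⟨hhX, hhY⟩ := hhY
  -- the commutator
  obtain ⟨c, hc⟩ : ∃ c, c = g * h * g⁻¹ * h⁻¹ := ⟨_, rfl⟩
  obtain ⟨c1, c2, c3⟩ := S.comm_facts hg2 hh2 (by norm_num)
  rw [← hc] at c1 c2 c3
  rw [hgX, hhY, hhX, hgY, mul_zero, sub_zero] at c3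
  obtain ⟨Δ, hΔ⟩ : ∃ Δ : ℝ, Δ = ((s * R : ℕ) : ℝ) / N * (((s' * R : ℕ) : ℝ) / N) := ⟨_, rfl⟩
  rw [← hΔ] at c3
  have hΔ0 : 0 ≤ Δ := by rw [hΔ]; positivity
  have hPΔ : (P : ℝ) * Δ ≤ 1 / N := by
    have h1 : P * ((s * R) * (s' * R)) ≤ N := by
      calc P * ((s * R) * (s' * R)) = (R * R) * (P * (s * s')) := by ring
        _ ≤ (R * R) * (P * D ^ 2) := by
            apply Nat.mul_le_mul_left
            apply Nat.mul_le_mul_left
            rw [pow_two]
            exact Nat.mul_le_mul hsD hsD'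
        _ ≤ N := hR3
    have h2 : (P : ℝ) * (((s * R : ℕ) : ℝ) * ((s' * R : ℕ) : ℝ)) ≤ N := by exact_mod_cast h1
    rw [hΔ]
    have h3 : (P : ℝ) * (((s * R : ℕ) : ℝ) / N * (((s' * R : ℕ) : ℝ) / N))
        = (P : ℝ) * (((s * R : ℕ) : ℝ) * ((s' * R : ℕ) : ℝ)) / (N * N) := by
      field_simp
    rw [h3, div_le_div_iff₀ (by positivity) hN]
    nlinarith
  have hΔlow : 40 / (N : ℝ) < (160 * P * D ^ 2 : ℕ) * Δ := by
    have h1 : 40 * N < (160 * P * D ^ 2) * ((s * R) * (s' * R)) := by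
      calc 40 * N < 40 * (4 * (P * D ^ 2) * (R * R)) := by omega
        _ = (160 * P * D ^ 2) * (1 * R * (1 * R)) := by ring
        _ ≤ (160 * P * D ^ 2) * ((s * R) * (s' * R)) := by
            apply Nat.mul_le_mul_left
            exact Nat.mul_le_mul (Nat.mul_le_mul_right _ hs1) (Nat.mul_le_mul_right _ hs1')
    have h2 : (40 : ℝ) * N < ((160 * P * D ^ 2 : ℕ) : ℝ) * (((s * R : ℕ) : ℝ) * ((s' * R : ℕ) : ℝ)) := by
      exact_mod_cast h1
    rw [hΔ]
    have h3 : ((160 * P * D ^ 2 : ℕ) : ℝ) * (((s * R : ℕ) : ℝ) / N * (((s' * R : ℕ) : ℝ) / N))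
        = ((160 * P * D ^ 2 : ℕ) : ℝ) * (((s * R : ℕ) : ℝ) * ((s' * R : ℕ) : ℝ)) / (N * N) := by
      field_simp
    rw [h3, div_lt_div_iff₀ hN (by positivity)]
    nlinarith
  have hP1r : (1 : ℝ) ≤ P := by exact_mod_cast hP1
  have hΔ1 : Δ ≤ 1 / N := by nlinarith
  have hcsmall : |Z c| ≤ 100 / N := by
    have e1 : (100 : ℝ) / N = 1 / N + 30 / N + 69 / N := by ring
    have e3 : (0 : ℝ) < 69 / N := by positivity
    rw [abs_le] at *
    constructor <;> linarith [c3.1, c3.2]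
  have hgc : Commute g c := g8 c c1 c2 hcsmall
  have hhc : Commute h c := h8 c c1 c2 hcsmall
  -- powers of `g`
  obtain ⟨γ, hγ⟩ : ∃ γ : ℕ → G, ∀ n, γ n = β ((n * (s * R) : ℕ) : ℤ) 0 := ⟨_, fun _ => rfl⟩
  have hγf : ∀ n, n * (s * R) ≤ N → γ n ∈ B ∧ X (γ n) = ((n * (s * R) : ℕ) : ℝ) / N ∧ Y (γ n) = 0 := by
    intro n hn
    obtain ⟨u1, u2, u3⟩ := hβ ((n * (s * R) : ℕ) : ℤ) 0 (by
      rw [Nat.abs_cast]
      exact_mod_cast hn) h0
    rw [hγ]
    refine ⟨u1, ?_, ?_⟩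
    · rw [u2, Int.cast_natCast]
    · rw [u3]; simp
  have hpow : ∀ n, n * (s * R) ≤ N → ∃ E, Commute h E ∧ Commute g E ∧ g ^ n = γ n * E := by
    intro n
    induction n with
    | zero =>
      intro _
      obtain ⟨u1, u2, u3⟩ := hγf 0 (by simp)
      have hK : Ker X Y (γ 0) := ⟨by rw [u2]; simp, u3⟩
      have hm : γ 0 ∈ B ^ 4 := S.memPow u1 (by norm_num)
      exact ⟨(γ 0)⁻¹, (h4 _ hm hK).inv_right, (g4 _ hm hK).inv_right, by simp⟩
    | succ n ih =>
      intro hn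
      have hn' : n * (s * R) ≤ N := le_trans (Nat.mul_le_mul_right _ (Nat.le_succ n)) hn
      obtain ⟨E, E1, E2, E3⟩ := ih hn'
      obtain ⟨u1, u2, u3⟩ := hγf n hn'
      obtain ⟨v1, v2, v3⟩ := hγf (n + 1) hn
      have m1 : γ n * g ∈ B ^ 3 := S.mulMem (S.memPow u1 (le_refl 1)) hg2 (by norm_num)
      have m2 : (γ (n + 1))⁻¹ * (γ n * g) ∈ B ^ 4 :=
        S.mulMem (S.invMem (S.memPow v1 (le_refl 1))) m1 (by norm_num)
      obtain ⟨ix, iy, _⟩ := S.inv_facts (S.memPow v1 (by norm_num : 1 ≤ 10))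
      have e1 := S.mulx _ (S.memPow u1 (by norm_num)) _ (S.powMono (by norm_num) hg2)
        (S.powMono (by norm_num) m1)
      have e2 := S.muly _ (S.memPow u1 (by norm_num)) _ (S.powMono (by norm_num) hg2)
        (S.powMono (by norm_num) m1)
      have e3 := S.mulx _ (S.invMem (S.memPow v1 (by norm_num : 1 ≤ 10))) _
        (S.powMono (by norm_num) m1) (S.powMono (by norm_num) m2)
      have e4 := S.muly _ (S.invMem (S.memPow v1 (by norm_num : 1 ≤ 10))) _
        (S.powMono (by norm_num) m1) (S.powMono (by norm_num) m2)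
      have hK : Ker X Y ((γ (n + 1))⁻¹ * (γ n * g)) := by
        constructor
        · rw [e3, e1, ix, v2, u2, hgX]
          push_cast
          ring
        · rw [e4, e2, iy, v3, u3, hgY]
          ring
      refine ⟨(γ (n + 1))⁻¹ * (γ n * g) * E, (h4 _ m2 hK).mul_right E1, (g4 _ m2 hK).mul_right E2, ?_⟩
      calc g ^ (n + 1) = g ^ n * g := pow_succ _ _
        _ = γ n * (E * g) := by rw [E3, mul_assoc]
        _ = γ n * (g * E) := by rw [E2.eq]
        _ = γ (n + 1) * ((γ (n + 1))⁻¹ * (γ n * g) * E) := by group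
  have hcpow : ∀ n, c ^ n = g ^ n * h * (g ^ n)⁻¹ * h⁻¹ := by
    intro n
    induction n with
    | zero => simp
    | succ n ih =>
      have hcn : Commute (g ^ n) c := hgc.pow_left n
      calc c ^ (n + 1) = c * c ^ n := pow_succ' _ _
        _ = c * (g ^ n * h * (g ^ n)⁻¹ * h⁻¹) := by rw [ih]
        _ = (c * g ^ n) * h * (g ^ n)⁻¹ * h⁻¹ := by group
        _ = (g ^ n * c) * h * (g ^ n)⁻¹ * h⁻¹ := by rw [hcn.eq]
        _ = (g ^ n * (g * h * g⁻¹ * h⁻¹)) * h * (g ^ n)⁻¹ * h⁻¹ := by rw [hc]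
        _ = g ^ (n + 1) * h * (g ^ (n + 1))⁻¹ * h⁻¹ := by
            rw [pow_succ]
            group
  have hmain : ∀ n, n * (s * R) ≤ N →
      c ^ n ∈ B ^ 6 ∧ Ker X Y (c ^ n) ∧ |Z (c ^ n) - n * Δ| ≤ 30 / N := by
    intro n hn
    obtain ⟨E, E1, E2, E3⟩ := hpow n hn
    obtain ⟨u1, u2, u3⟩ := hγf n hn
    have hcn : c ^ n = γ n * h * (γ n)⁻¹ * h⁻¹ := by
      rw [hcpow n, E3]
      calc γ n * E * h * (γ n * E)⁻¹ * h⁻¹ = γ n * (E * h) * E⁻¹ * (γ n)⁻¹ * h⁻¹ := by group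
        _ = γ n * (h * E) * E⁻¹ * (γ n)⁻¹ * h⁻¹ := by rw [E1.eq]
        _ = γ n * h * (γ n)⁻¹ * h⁻¹ := by group
    obtain ⟨w1, w2, w3⟩ := S.comm_facts (S.memPow u1 (le_refl 1)) hh2 (by norm_num)
    rw [hcn]
    refine ⟨w1, w2, ?_⟩
    have e : X (γ n) * Y h - X h * Y (γ n) = n * Δ := by
      rw [u2, hhY, hhX, u3, hΔ]
      push_cast
      ring
    rw [← e]
    exact w3
  -- pigeonhole on the powers of `c`
  have hPrange : P * (s * R) ≤ N := by
    refine le_trans ?_ hrange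
    calc P * (s * R) ≤ P * (D * R) := Nat.mul_le_mul_left _ (Nat.mul_le_mul_right _ hsD)
      _ = (P * D * R) * 1 := by ring
      _ ≤ (P * D * R) * (160 * P * D ^ 2) := Nat.mul_le_mul_left _ (by
          have : 0 < 160 * P * D ^ 2 := by positivity
          omega)
      _ = 160 * P ^ 2 * D ^ 3 * R := by ring
  obtain ⟨a, b, hab, hbP, habc⟩ : ∃ a b : ℕ, a < b ∧ b ≤ P ∧ c ^ a = c ^ b := by
    by_contra hcon
    push Not at hcon
    have hinj : Set.InjOn (fun n : ℕ => c ^ n) (Finset.range (P + 1) : Set ℕ) := by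
      intro a ha b hb hab
      rw [Finset.mem_coe, Finset.mem_range] at ha hb
      by_contra hne
      rcases Nat.lt_or_gt_of_ne hne with hlt | hlt
      · exact hcon a b hlt (by omega) hab
      · exact hcon b a hlt (by omega) hab.symm
    have h1 := hF8 ((Finset.range (P + 1)).image (fun n : ℕ => c ^ n)) (by
      intro z hz
      obtain ⟨n, hn, rfl⟩ := Finset.mem_image.mp hz
      rw [Finset.mem_range] at hn
      obtain ⟨w1, w2, w3⟩ := hmain n (le_trans (Nat.mul_le_mul_right _ (by omega)) hPrange)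
      refine ⟨S.powMono (by norm_num) w1, w2, ?_⟩
      have hnP : (n : ℝ) * Δ ≤ 1 / N := by
        refine le_trans (mul_le_mul_of_nonneg_right ?_ hΔ0) hPΔ
        exact_mod_cast (by omega : n ≤ P)
      have hn0 : (0 : ℝ) ≤ (n : ℝ) * Δ := by positivity
      have e1 : (100 : ℝ) / N = 1 / N + 30 / N + 69 / N := by ring
      have e3 : (0 : ℝ) < 69 / N := by positivity
      rw [abs_le] at *
      constructor <;> linarith [w3.1, w3.2])
    rw [Finset.card_image_of_injOn hinj, Finset.card_range] at h1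
    omega
  obtain ⟨d, hd⟩ : ∃ d, b = a + d := ⟨b - a, by omega⟩
  have hcd : c ^ d = 1 := by
    rw [hd, pow_add] at habc
    exact (mul_eq_left.mp habc.symm)
  have hn : d * (160 * P * D ^ 2) * (s * R) ≤ N := by
    refine le_trans ?_ hrange
    calc d * (160 * P * D ^ 2) * (s * R) ≤ P * (160 * P * D ^ 2) * (D * R) := by
          apply Nat.mul_le_mul
          · exact Nat.mul_le_mul_right _ (by omega)
          · exact Nat.mul_le_mul_right _ hsD
      _ = 160 * P ^ 2 * D ^ 3 * R := by ring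
  obtain ⟨_, _, w3⟩ := hmain _ hn
  have hone : c ^ (d * (160 * P * D ^ 2)) = 1 := by rw [pow_mul, hcd, one_pow]
  rw [hone] at w3
  have hZ1 := S.one_facts.2.2
  have hfin : ((d * (160 * P * D ^ 2) : ℕ) : ℝ) * Δ ≤ 40 / N := by
    have e : (40 : ℝ) / N = 10 / N + 30 / N := by ring
    rw [abs_le] at *
    linarith [w3.1, w3.2, hZ1.1, hZ1.2]
  have hd1 : (1 : ℝ) ≤ d := by exact_mod_cast (by omega : 1 ≤ d)
  have hfin2 : ((160 * P * D ^ 2 : ℕ) : ℝ) * Δ ≤ ((d * (160 * P * D ^ 2) : ℕ) : ℝ) * Δ := by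
    apply mul_le_mul_of_nonneg_right _ hΔ0
    have : 160 * P * D ^ 2 ≤ d * (160 * P * D ^ 2) := Nat.le_mul_of_pos_left _ (by omega)
    exact_mod_cast this
  linarith

end Setup


end Core

/-! ### From admissibility to the working hypotheses -/

theorem cocycle_coords {G : Type} [Group G] {φ : G → Heis} {x y : G} {z : ℝ}
    (h : cocycle φ x y = ⟨0, 0, z⟩) :
    (φ (x * y)).x = (φ x).x + (φ y).x ∧ (φ (x * y)).y = (φ x).y + (φ y).y ∧
    (φ (x * y)).z - (φ x).z - (φ y).z - (φ x).x * (φ y).y = z := by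
  have hx : (cocycle φ x y).x = 0 := by rw [h]
  have hy : (cocycle φ x y).y = 0 := by rw [h]
  have hz : (cocycle φ x y).z = z := by rw [h]
  simp only [cocycle, Heis.mul_x, Heis.mul_y, Heis.mul_z, Heis.inv_x, Heis.inv_y, Heis.inv_z]
    at hx hy hz
  have h1 : (φ (x * y)).x = (φ x).x + (φ y).x := by linarith
  have h2 : (φ (x * y)).y = (φ x).y + (φ y).y := by linarith
  refine ⟨h1, h2, ?_⟩
  rw [h2] at hz
  rw [← hz]
  ring

/-- The grid condition in terms of integers. -/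
theorem grid_iff {N : ℕ} (hN : 0 < N) (i : ℤ) : |(i : ℝ) / N| ≤ 1 ↔ |i| ≤ (N : ℤ) := by
  have hN' : (0 : ℝ) < N := by exact_mod_cast hN
  rw [abs_div, abs_of_pos hN', div_le_one hN']
  constructor
  · intro h; exact_mod_cast h
  · intro h; exact_mod_cast h

theorem setup_of_admissible {m : ℕ} (hm : 10 ≤ m) {K : ℝ} {N C : ℕ} (hN : 0 < N) {G : Type}
    [Group G] [DecidableEq G] {B : Finset G} {φ : G → Heis}
    (h : Admissible m K N (B : Set G) φ) (hc : B.card ≤ C * N ^ 3) :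
    Setup B (fun g => (φ g).x) (fun g => (φ g).y) (fun g => (φ g).z) N ⌊K⌋₊ C := by
  obtain ⟨h1, hinv, W, hW, hBW⟩ := h.approx
  have hcoe : ∀ n : ℕ, ∀ x : G, x ∈ B ^ n → x ∈ (B : Set G) ^ n := by
    intro n x hx
    rw [← Finset.coe_pow]
    exact hx
  have hmono : (B : Set G) ^ 10 ⊆ (B : Set G) ^ m := Set.pow_subset_pow_right h1 hm
  have key : ∀ x ∈ B ^ 10, ∀ y ∈ B ^ 10, x * y ∈ B ^ 10 →
      ∃ z : ℝ, |z| ≤ 10 / N ∧ cocycle φ x y = ⟨0, 0, z⟩ := fun x hx y hy hxy =>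
    h.almostHom x (hmono (hcoe 10 x hx)) y (hmono (hcoe 10 y hy)) (hmono (hcoe 10 _ hxy))
  refine
    { hN := hN
      one := h1
      inv := ?_
      cover := ⟨W, Nat.le_floor hW, ?_⟩
      card := hc
      bdx := fun b hb => (h.values b hb).2.1
      bdy := fun b hb => (h.values b hb).2.2.1
      bdz := fun b hb => (h.values b hb).2.2.2
      onto := ?_
      mulx := ?_
      muly := ?_
      mulz := ?_ }
  · intro b hb
    have : b⁻¹ ∈ (B : Set G)⁻¹ := by simpa using hb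
    rw [hinv] at this
    exact this
  · rw [← Finset.coe_subset, Finset.coe_mul, Finset.coe_mul]
    exact hBW
  · intro i j hi hj
    obtain ⟨b, hb, hx, hy, _⟩ := h.onto i j ((grid_iff hN i).mpr hi) ((grid_iff hN j).mpr hj)
    exact ⟨b, hb, hx, hy⟩
  · intro x hx y hy hxy
    obtain ⟨z, _, hz⟩ := key x hx y hy hxy
    exact (cocycle_coords hz).1
  · intro x hx y hy hxy
    obtain ⟨z, _, hz⟩ := key x hx y hy hxy
    exact (cocycle_coords hz).2.1
  · intro x hx y hy hxy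
    obtain ⟨z, hz1, hz⟩ := key x hx y hy hxy
    show |(φ (x * y)).z - (φ x).z - (φ y).z - (φ x).x * (φ y).y| ≤ 10 / N
    rw [(cocycle_coords hz).2.2]
    exact hz1

/-- If the cocycle condition holds on `B ^ m` with `m ≥ 10` then `|B| / N³ → ∞`. -/
theorem strong {m : ℕ} (hm : 10 ≤ m) (K : ℝ) (C : ℕ) : ∃ N₀ : ℕ, ∀ N ≥ N₀,
    ((C * N ^ 3 : ℕ) : ℕ∞) < minCard m K N := by
  classical
  refine ⟨60 + (160 * Setup.cP ⌊K⌋₊ C ^ 2 * Setup.cD ⌊K⌋₊ C ^ 3) ^ 2, fun N hN => ?_⟩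
  have hlow : ((C * N ^ 3 : ℕ) : ℕ∞) + 1 ≤ minCard m K N := by
    refine le_sInf ?_
    rintro n ⟨G, hG, B, φ, hadm, rfl⟩
    by_contra hcon
    rw [not_le] at hcon
    have hle : B.encard ≤ ((C * N ^ 3 : ℕ) : ℕ∞) := Order.lt_add_one_iff_of_not_isMax
      (by rw [isMax_iff_eq_top]; exact ENat.natCast_ne_top _) |>.mp hcon
    have hfin : B.Finite := Set.finite_of_encard_le_coe hle
    have hBc : (hfin.toFinset : Set G) = B := hfin.coe_toFinset
    have hcard : hfin.toFinset.card ≤ C * N ^ 3 := by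
      have : (hfin.toFinset.card : ℕ∞) ≤ ((C * N ^ 3 : ℕ) : ℕ∞) := by
        rw [← Set.encard_coe_eq_coe_finsetCard, hBc]
        exact hle
      exact_mod_cast this
    have hadm' : Admissible m K N (hfin.toFinset : Set G) φ := by rw [hBc]; exact hadm
    exact (setup_of_admissible hm (by omega) hadm' hcard).absurd_of_large (by omega) (by omega)
  refine lt_of_lt_of_le ?_ hlow
  exact_mod_cast Nat.lt_succ_self _

/-- The trivial lower bound `(2N+1)² ≤ |B|`. -/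
theorem lower (m : ℕ) (K : ℝ) {N : ℕ} (hN : 0 < N) :
    (((2 * N + 1) ^ 2 : ℕ) : ℕ∞) ≤ minCard m K N := by
  classical
  refine le_sInf ?_
  rintro n ⟨G, hG, B, φ, hadm, rfl⟩
  have hN' : (N : ℝ) ≠ 0 := by exact_mod_cast hN.ne'
  have h := hadm.onto
  have h' : ∀ p : ℤ × ℤ, |p.1| ≤ (N : ℤ) → |p.2| ≤ (N : ℤ) →
      ∃ b ∈ B, (φ b).x = p.1 / N ∧ (φ b).y = p.2 / N := by
    intro p h1 h2
    obtain ⟨b, hb, hx, hy, _⟩ := h p.1 p.2 ((grid_iff hN _).mpr h1) ((grid_iff hN _).mpr h2)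
    exact ⟨b, hb, hx, hy⟩
  choose! β hβ using h'
  set P : Finset (ℤ × ℤ) := Finset.Icc (-(N : ℤ)) N ×ˢ Finset.Icc (-(N : ℤ)) N with hP
  have hPm : ∀ p ∈ P, |p.1| ≤ (N : ℤ) ∧ |p.2| ≤ (N : ℤ) := by
    intro p hp
    rw [hP, Finset.mem_product, Finset.mem_Icc, Finset.mem_Icc] at hp
    exact ⟨abs_le.mpr hp.1, abs_le.mpr hp.2⟩
  have hsub : (P.image β : Set G) ⊆ B := by
    intro g hg
    obtain ⟨p, hp, rfl⟩ := Finset.mem_image.mp hg
    exact (hβ p (hPm p hp).1 (hPm p hp).2).1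
  have hinj : Set.InjOn β (P : Set (ℤ × ℤ)) := by
    intro p hp q hq hpq
    obtain ⟨_, p1, p2⟩ := hβ p (hPm p hp).1 (hPm p hp).2
    obtain ⟨_, q1, q2⟩ := hβ q (hPm q hq).1 (hPm q hq).2
    rw [hpq, q1] at p1
    rw [hpq, q2] at p2
    have e1 : q.1 = p.1 := by exact_mod_cast (div_left_inj' hN').mp p1
    have e2 : q.2 = p.2 := by exact_mod_cast (div_left_inj' hN').mp p2
    exact Prod.ext e1.symm e2.symm
  calc (((2 * N + 1) ^ 2 : ℕ) : ℕ∞) = ((P.image β).card : ℕ∞) := by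
        rw [Finset.card_image_of_injOn hinj, hP, Finset.card_product, Int.card_Icc]
        have : ((N : ℤ) + 1 - -(N : ℤ)).toNat = 2 * N + 1 := by omega
        rw [this, pow_two]
    _ = (P.image β : Set G).encard := (Set.encard_coe_eq_coe_finsetCard _).symm
    _ ≤ B.encard := Set.encard_le_encard hsub

/-! ### The example for `m = 1` -/

section Example

/-- The ambient (abelian) group of the example, written additively. -/
abbrev A (M : ℕ) : Type := ZMod 5 × ZMod M × ZMod M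

/-- The approximate group: `0` and everything in the layers `1` and `4 = -1` of `ZMod 5`. -/
def exB (M : ℕ) : Set (Multiplicative (A M)) :=
  {g | g = 1 ∨ (Multiplicative.toAdd g).1 = 1 ∨ (Multiplicative.toAdd g).1 = 4}

/-- The values on layer `1`. -/
noncomputable def exF (N : ℕ) (q : ZMod (2 * N + 1) × ZMod (2 * N + 1)) : Heis :=
  ⟨((((q.1.val : ℤ) - N : ℤ)) : ℝ) / N, ((((q.2.val : ℤ) - N : ℤ)) : ℝ) / N, 0⟩

open Classical in
/-- The map of the example. -/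
noncomputable def exφ (N : ℕ) (g : Multiplicative (A (2 * N + 1))) : Heis :=
  if (Multiplicative.toAdd g).1 = 1 then exF N (Multiplicative.toAdd g).2
  else if (Multiplicative.toAdd g).1 = 4 then (exF N (-(Multiplicative.toAdd g).2))⁻¹
  else 1

theorem exφ_one (N : ℕ) : exφ N 1 = 1 := by
  have h1 : (Multiplicative.toAdd (1 : Multiplicative (A (2 * N + 1)))).1 = 0 := rfl
  unfold exφ
  rw [h1, if_neg (by decide), if_neg (by decide)]

theorem exφ_layer1 {N : ℕ} {g : Multiplicative (A (2 * N + 1))}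
    (h : (Multiplicative.toAdd g).1 = 1) : exφ N g = exF N (Multiplicative.toAdd g).2 := by
  unfold exφ
  rw [if_pos h]

theorem exφ_layer4 {N : ℕ} {g : Multiplicative (A (2 * N + 1))}
    (h : (Multiplicative.toAdd g).1 = 4) :
    exφ N g = (exF N (-(Multiplicative.toAdd g).2))⁻¹ := by
  unfold exφ
  rw [h, if_neg (by decide), if_pos rfl]

theorem exF_bound {N : ℕ} (hN : 0 < N) (q : ZMod (2 * N + 1) × ZMod (2 * N + 1)) :
    |(exF N q).x| ≤ 1 ∧ |(exF N q).y| ≤ 1 := by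
  have h1 := ZMod.val_lt q.1
  have h2 := ZMod.val_lt q.2
  constructor
  · exact (grid_iff hN _).mpr (by rw [abs_le]; constructor <;> omega)
  · exact (grid_iff hN _).mpr (by rw [abs_le]; constructor <;> omega)

theorem exB_approx (M : ℕ) : IsApproxGroup 3 (exB M) := by
  classical
  refine ⟨Or.inl rfl, ?_, {1, Multiplicative.ofAdd ((1, 0) : A M), Multiplicative.ofAdd ((4, 0) : A M)},
    ?_, ?_⟩
  · ext g
    rw [Set.mem_inv]
    have key : ∀ g : Multiplicative (A M), g ∈ exB M → g⁻¹ ∈ exB M := by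
      intro g hg
      rcases hg with h | h | h
      · left; rw [h, inv_one]
      · right; right
        rw [toAdd_inv, Prod.fst_neg, h]
        decide
      · right; left
        rw [toAdd_inv, Prod.fst_neg, h]
        decide
    constructor
    · intro h
      have := key _ h
      rwa [inv_inv] at this
    · exact key g
  · have : (({1, Multiplicative.ofAdd ((1, 0) : A M), Multiplicative.ofAdd ((4, 0) : A M)} :
      Finset (Multiplicative (A M))).card : ℝ) ≤ ((3 : ℕ) : ℝ) := by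
      exact_mod_cast Finset.card_le_three
    simpa using this
  · rintro _ ⟨a, ha, b, hb, rfl⟩
    rw [Set.mem_mul]
    show ∃ x ∈ _, ∃ y ∈ _, x * y = a * b
    have hshift : ∀ (c : ZMod 5) (d : ZMod 5), (c = 1 ∨ c = 4) → (d = 1 ∨ d = 4) →
        (Multiplicative.toAdd (a * b)).1 = c + d →
        ∃ x ∈ ((({1, Multiplicative.ofAdd ((1, 0) : A M), Multiplicative.ofAdd ((4, 0) : A M)} :
          Finset (Multiplicative (A M))) : Set (Multiplicative (A M)))), ∃ y ∈ exB M, x * y = a * b := by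
      intro c d hc hd h
      refine ⟨Multiplicative.ofAdd ((c, 0) : A M), ?_,
        (Multiplicative.ofAdd ((c, 0) : A M))⁻¹ * (a * b), ?_, by group⟩
      · rcases hc with rfl | rfl <;> simp
      · right
        have h2 : (Multiplicative.toAdd ((Multiplicative.ofAdd ((c, 0) : A M))⁻¹ * (a * b))).1 = d := by
          rw [toAdd_mul, Prod.fst_add, h, toAdd_inv, toAdd_ofAdd, Prod.fst_neg]
          ring
        rw [h2]
        exact hd
    rcases ha with rfl | ha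
    · exact ⟨1, by simp, b, hb, rfl⟩
    · rcases hb with rfl | hb
      · exact ⟨1, by simp, a, Or.inr ha, by simp⟩
      · exact hshift _ _ ha hb (by rw [toAdd_mul, Prod.fst_add])

theorem exB_encard (M : ℕ) [NeZero M] : (exB M).encard ≤ ((2 * M ^ 2 + 1 : ℕ) : ℕ∞) := by
  classical
  set T : Finset (Multiplicative (A M)) :=
    {1} ∪ (Finset.univ.image (fun q : ZMod M × ZMod M => Multiplicative.ofAdd ((1, q) : A M)) ∪
      Finset.univ.image (fun q : ZMod M × ZMod M => Multiplicative.ofAdd ((4, q) : A M))) with hT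
  have hsub : exB M ⊆ (T : Set (Multiplicative (A M))) := by
    intro g hg
    rw [Finset.mem_coe, hT, Finset.mem_union, Finset.mem_union, Finset.mem_singleton,
      Finset.mem_image, Finset.mem_image]
    rcases hg with h | h | h
    · exact Or.inl h
    · refine Or.inr (Or.inl ⟨(Multiplicative.toAdd g).2, Finset.mem_univ _, ?_⟩)
      rw [← h]
      rfl
    · refine Or.inr (Or.inr ⟨(Multiplicative.toAdd g).2, Finset.mem_univ _, ?_⟩)
      rw [← h]
      rfl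
  have hcard : T.card ≤ 2 * M ^ 2 + 1 := by
    have hu : (Finset.univ : Finset (ZMod M × ZMod M)).card = M * M := by
      rw [Finset.card_univ, Fintype.card_prod, ZMod.card]
    calc T.card ≤ 1 + (M * M + M * M) := by
          refine (Finset.card_union_le _ _).trans (add_le_add (by simp) ?_)
          refine (Finset.card_union_le _ _).trans (add_le_add ?_ ?_)
          · exact Finset.card_image_le.trans hu.le
          · exact Finset.card_image_le.trans hu.le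
      _ = 2 * M ^ 2 + 1 := by ring
  calc (exB M).encard ≤ (T : Set (Multiplicative (A M))).encard := Set.encard_le_encard hsub
    _ = (T.card : ℕ∞) := Set.encard_coe_eq_coe_finsetCard _
    _ ≤ _ := by exact_mod_cast hcard

theorem ex_admissible {K : ℝ} (hK : 3 ≤ K) {N : ℕ} (hN : 0 < N) :
    Admissible 1 K N (exB (2 * N + 1)) (exφ N) := by
  classical
  have hNr : (0 : ℝ) < N := by exact_mod_cast hN
  obtain ⟨h1, h2, X, h3, h4⟩ := exB_approx (2 * N + 1)
  refine ⟨⟨h1, h2, X, h3.trans hK, h4⟩, ?_, ?_, ?_⟩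
  · intro b hb
    rcases hb with rfl | h | h
    · rw [exφ_one]
      refine ⟨⟨0, 0, by simp, by simp⟩, by simp, by simp, by simp⟩
    · rw [exφ_layer1 h]
      obtain ⟨b1, b2⟩ := exF_bound hN (Multiplicative.toAdd b).2
      refine ⟨⟨_, _, rfl, rfl⟩, by linarith, by linarith, ?_⟩
      show |(0 : ℝ)| ≤ 10
      simp
    · rw [exφ_layer4 h]
      obtain ⟨b1, b2⟩ := exF_bound hN (-(Multiplicative.toAdd b).2)
      refine ⟨⟨-((((-(Multiplicative.toAdd b).2).1.val : ℤ) - N : ℤ)),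
        -((((-(Multiplicative.toAdd b).2).2.val : ℤ) - N : ℤ)), ?_, ?_⟩, ?_, ?_, ?_⟩
      · rw [Heis.inv_x]
        show -(((((-(Multiplicative.toAdd b).2).1.val : ℤ) - N : ℤ) : ℝ) / N) = _
        push_cast
        ring
      · rw [Heis.inv_y]
        show -(((((-(Multiplicative.toAdd b).2).2.val : ℤ) - N : ℤ) : ℝ) / N) = _
        push_cast
        ring
      · rw [Heis.inv_x, abs_neg]; linarith
      · rw [Heis.inv_y, abs_neg]; linarith
      · rw [Heis.inv_z]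
        have hz : (exF N (-(Multiplicative.toAdd b).2)).z = 0 := rfl
        rw [hz, neg_zero, zero_add, abs_mul]
        have := mul_le_mul b1 b2 (abs_nonneg _) zero_le_one
        linarith
  · intro i j hi hj
    rw [grid_iff hN] at hi hj
    rw [abs_le] at hi hj
    refine ⟨Multiplicative.ofAdd ((1, (((i + N).toNat : ℕ) : ZMod (2 * N + 1)),
      (((j + N).toNat : ℕ) : ZMod (2 * N + 1))) : A (2 * N + 1)), Or.inr (Or.inl rfl), ?_⟩
    rw [exφ_layer1 rfl]
    have e1 : (((i + N).toNat : ℕ) : ZMod (2 * N + 1)).val = (i + N).toNat := by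
      rw [ZMod.val_natCast]
      exact Nat.mod_eq_of_lt (by omega)
    have e2 : (((j + N).toNat : ℕ) : ZMod (2 * N + 1)).val = (j + N).toNat := by
      rw [ZMod.val_natCast]
      exact Nat.mod_eq_of_lt (by omega)
    refine ⟨?_, ?_, ?_⟩
    · show (((((((i + N).toNat : ℕ) : ZMod (2 * N + 1)).val : ℤ) - N : ℤ)) : ℝ) / N = i / N
      rw [e1]
      have : (((i + N).toNat : ℕ) : ℤ) - N = i := by omega
      rw [this]
    · show (((((((j + N).toNat : ℕ) : ZMod (2 * N + 1)).val : ℤ) - N : ℤ)) : ℝ) / N = j / N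
      rw [e2]
      have : (((j + N).toNat : ℕ) : ℤ) - N = j := by omega
      rw [this]
    · show |(0 : ℝ)| ≤ 10
      simp
  · intro x hx y hy hxy
    rw [pow_one] at hx hy hxy
    refine ⟨0, by rw [abs_zero]; positivity, ?_⟩
    show cocycle (exφ N) x y = 1
    unfold cocycle
    rcases hx with rfl | hx
    · rw [one_mul, exφ_one]; group
    rcases hy with rfl | hy
    · rw [mul_one, exφ_one]; group
    have hfst : (Multiplicative.toAdd (x * y)).1 =
        (Multiplicative.toAdd x).1 + (Multiplicative.toAdd y).1 := by rw [toAdd_mul, Prod.fst_add]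
    -- the product must be the identity
    have hone : x * y = 1 := by
      rcases hxy with h | h
      · exact h
      · exfalso
        rw [hfst] at h
        rcases hx with hx | hx <;> rcases hy with hy | hy <;> rw [hx, hy] at h <;>
          revert h <;> decide
    have hyx : y = x⁻¹ := (inv_eq_of_mul_eq_one_right hone).symm
    rw [hone, exφ_one, mul_one]
    rcases hx with hx | hx
    · have hy4 : (Multiplicative.toAdd y).1 = 4 := by
        rw [hyx, toAdd_inv, Prod.fst_neg, hx]; decide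
      rw [exφ_layer1 hx, exφ_layer4 hy4, hyx, toAdd_inv, Prod.snd_neg, neg_neg, inv_inv,
        mul_inv_cancel]
    · have hy1 : (Multiplicative.toAdd y).1 = 1 := by
        rw [hyx, toAdd_inv, Prod.fst_neg, hx]; decide
      rw [exφ_layer4 hx, exφ_layer1 hy1, hyx, toAdd_inv, Prod.snd_neg, inv_inv, inv_mul_cancel]

theorem upper {K : ℝ} (hK : 3 ≤ K) {N : ℕ} (hN : 0 < N) :
    minCard 1 K N ≤ ((2 * (2 * N + 1) ^ 2 + 1 : ℕ) : ℕ∞) := by
  refine (sInf_le ?_).trans (exB_encard (2 * N + 1))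
  exact ⟨_, _, _, _, ex_admissible hK hN, rfl⟩

end Example

/-- **Main result.**
1. For the problem as stated (cocycle condition on `B`) and every `K ≥ 3`, `N ≥ 1`,
   `(2N+1)² ≤ m_K(N) ≤ 2(2N+1)² + 1`; in particular `m_K(N)/N³` does not tend to infinity.
2. If `φ` is an approximate homomorphism on `B ^ m` for some `m ≥ 10` (as in the `SO(3)` analogue, where
   `m = 12`), then `|B|/N³ → ∞`. -/
theorem result :
    (∀ K : ℝ, 3 ≤ K → ∀ N : ℕ, 1 ≤ N →
      (((2 * N + 1) ^ 2 : ℕ) : ℕ∞) ≤ minCard 1 K N ∧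
      minCard 1 K N ≤ ((2 * (2 * N + 1) ^ 2 + 1 : ℕ) : ℕ∞)) ∧
    (¬ ∀ K : ℝ, 1 ≤ K → ∀ C : ℕ, ∃ N₀ : ℕ, ∀ N ≥ N₀, ((C * N ^ 3 : ℕ) : ℕ∞) < minCard 1 K N) ∧
    (∀ m : ℕ, 10 ≤ m → ∀ K : ℝ, ∀ C : ℕ, ∃ N₀ : ℕ, ∀ N ≥ N₀,
      ((C * N ^ 3 : ℕ) : ℕ∞) < minCard m K N) := by
  refine ⟨fun K hK N hN => ⟨lower 1 K hN, upper hK hN⟩, ?_, fun m hm K C => strong hm K C⟩
  intro h
  obtain ⟨N₀, hN₀⟩ := h 3 (by norm_num) 1
  have h1 := hN₀ (N₀ + 100) (by omega)
  have h2 := h1.trans_le (upper (K := 3) le_rfl (N := N₀ + 100) (by omega))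
  have h3 : 1 * (N₀ + 100) ^ 3 < 2 * (2 * (N₀ + 100) + 1) ^ 2 + 1 := by exact_mod_cast h2
  obtain ⟨n, hn⟩ : ∃ n, n = N₀ + 100 := ⟨_, rfl⟩
  have hn100 : 100 ≤ n := by omega
  rw [← hn, one_mul] at h3
  have h4 : 100 * n ^ 2 ≤ n ^ 3 := by
    calc 100 * n ^ 2 ≤ n * n ^ 2 := Nat.mul_le_mul_right _ hn100
      _ = n ^ 3 := by ring
  nlinarith


end Pool.Agent.Results.MP_6a66b4_co.HeisenbergGrid
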